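import Mathlib

/-!
# The arithmetic step

Three integer polynomials `f₁`, `f₂`, `f₃` of odd degree `d` with
`f₃(x² + 2Dx) = - f₁(x) f₁(-x-2D)` and `f₃(2x²) = - 2^d f₂(x) f₂(-x)`:
at least one of them takes values with an even number of prime factors infinitely often
and values with an odd number of prime factors infinitely often.
-/

open Polynomial

namespace MP648OD

/-- Liouville's function of `|n|` (the value at `0` plays no role) -/
def L (n : ℤ) : ℤ := (-1) ^ (ArithmeticFunction.cardFactors n.natAbs)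

theorem L_cases (n : ℤ) : L n = 1 ∨ L n = -1 := neg_one_pow_eq_or ℤ _

theorem L_mul {m n : ℤ} (hm : m ≠ 0) (hn : n ≠ 0) : L (m * n) = L m * L n := by
  unfold L
  rw [Int.natAbs_mul, ArithmeticFunction.cardFactors_mul (Int.natAbs_ne_zero.2 hm) (Int.natAbs_ne_zero.2 hn),
    pow_add]

theorem L_neg (n : ℤ) : L (-n) = L n := by
  unfold L
  rw [Int.natAbs_neg]

theorem L_two_pow {d : ℕ} (hd : Odd d) : L (2 ^ d) = -1 := by
  unfold L
  rw [Int.natAbs_pow]
  have h2 : (2 : ℤ).natAbs = 2 := rfl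
  rw [h2, ArithmeticFunction.cardFactors_apply_prime_pow Nat.prime_two]
  exact hd.neg_one_pow

/-- both signs occur infinitely often -/
def Both (f : ℤ[X]) : Prop :=
  {n : ℤ | L (f.eval n) = 1}.Infinite ∧ {n : ℤ | L (f.eval n) = -1}.Infinite

theorem const_of_not_both {f : ℤ[X]} (hf : f ≠ 0) (h : ¬ Both f) :
    ∃ s : ℤ, s * s = 1 ∧ {n : ℤ | f.eval n = 0 ∨ L (f.eval n) ≠ s}.Finite := by
  have h0 : {n : ℤ | f.eval n = 0}.Finite := by
    have := f.rootSet_finite ℤ
    refine this.subset ?_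
    intro n hn
    rw [Polynomial.mem_rootSet]
    exact ⟨hf, by simpa [Polynomial.aeval_def] using hn⟩
  unfold Both at h
  rw [not_and_or, Set.not_infinite, Set.not_infinite] at h
  rcases h with h | h
  · refine ⟨-1, by norm_num, (h0.union h).subset ?_⟩
    intro n hn
    rcases hn with hn | hn
    · exact Or.inl hn
    · rcases L_cases (f.eval n) with h1 | h1
      · exact Or.inr h1
      · exact absurd h1 hn
  · refine ⟨1, by norm_num, (h0.union h).subset ?_⟩
    intro n hn
    rcases hn with hn | hn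
    · exact Or.inl hn
    · rcases L_cases (f.eval n) with h1 | h1
      · exact absurd h1 hn
      · exact Or.inr h1

theorem one_of_three {f₁ f₂ f₃ : ℤ[X]} {d : ℕ} {D : ℤ} (hd : Odd d) (h1 : f₁ ≠ 0) (h2 : f₂ ≠ 0)
    (e1 : ∀ x : ℤ, f₃.eval (x ^ 2 + 2 * D * x) = -(f₁.eval x * f₁.eval (-x - 2 * D)))
    (e2 : ∀ x : ℤ, f₃.eval (2 * x ^ 2) = -(2 ^ d * (f₂.eval x * f₂.eval (-x)))) :
    Both f₁ ∨ Both f₂ ∨ Both f₃ := by
  by_cases b1 : Both f₁
  · exact Or.inl b1
  by_cases b2 : Both f₂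
  · exact Or.inr (Or.inl b2)
  right; right
  obtain ⟨s, hs, hsf⟩ := const_of_not_both h1 b1
  obtain ⟨t, ht, htf⟩ := const_of_not_both h2 b2
  constructor
  · -- the points x² + 2 D x
    set B : Set ℤ := {n : ℤ | f₁.eval n = 0 ∨ L (f₁.eval n) ≠ s} with hB
    have hbad : (B ∪ (fun n : ℤ => -n - 2 * D) ⁻¹' B).Finite := by
      refine hsf.union (hsf.preimage ?_)
      intro x _ y _ hxy
      have : -x - 2 * D = -y - 2 * D := hxy
      linarith
    have hgood : (Set.Ioi |D| \ (B ∪ (fun n : ℤ => -n - 2 * D) ⁻¹' B)).Infinite :=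
      (Set.Ioi_infinite _).sdiff hbad
    refine (hgood.image (f := fun x : ℤ => x ^ 2 + 2 * D * x) ?_).mono ?_
    · intro x hx y hy hxy
      have hx1 : |D| < x := hx.1
      have hy1 : |D| < y := hy.1
      have h3 : x ^ 2 + 2 * D * x = y ^ 2 + 2 * D * y := hxy
      have h4 : (x - y) * (x + y + 2 * D) = 0 := by linear_combination h3
      rcases mul_eq_zero.1 h4 with h5 | h5
      · linarith
      · exfalso
        have := neg_abs_le D
        linarith
    · rintro _ ⟨x, ⟨-, hx⟩, rfl⟩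
      rw [Set.mem_union, not_or] at hx
      obtain ⟨hx1, hx2⟩ := hx
      rw [Set.mem_preimage] at hx2
      rw [hB, Set.mem_ofPred_eq, not_or, not_not] at hx1 hx2
      change L (f₃.eval (x ^ 2 + 2 * D * x)) = 1
      rw [e1, L_neg, L_mul hx1.1 hx2.1, hx1.2, hx2.2, hs]
  · -- the points 2 x²
    set B : Set ℤ := {n : ℤ | f₂.eval n = 0 ∨ L (f₂.eval n) ≠ t} with hB
    have hbad : (B ∪ (fun n : ℤ => -n) ⁻¹' B).Finite := by
      refine htf.union (htf.preimage ?_)
      intro x _ y _ hxy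
      exact neg_injective hxy
    have hgood : (Set.Ioi 0 \ (B ∪ (fun n : ℤ => -n) ⁻¹' B)).Infinite :=
      (Set.Ioi_infinite _).sdiff hbad
    refine (hgood.image (f := fun x : ℤ => 2 * x ^ 2) ?_).mono ?_
    · intro x hx y hy hxy
      have hx1 : 0 < x := hx.1
      have hy1 : 0 < y := hy.1
      have h3 : 2 * x ^ 2 = 2 * y ^ 2 := hxy
      have h4 : (x - y) * (x + y) = 0 := by nlinarith
      rcases mul_eq_zero.1 h4 with h5 | h5
      · linarith
      · exfalso
        linarith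
    · rintro _ ⟨x, ⟨-, hx⟩, rfl⟩
      rw [Set.mem_union, not_or] at hx
      obtain ⟨hx1, hx2⟩ := hx
      rw [Set.mem_preimage] at hx2
      rw [hB, Set.mem_ofPred_eq, not_or, not_not] at hx1 hx2
      change L (f₃.eval (2 * x ^ 2)) = -1
      rw [e2, L_neg, L_mul (by positivity) (mul_ne_zero hx1.1 hx2.1), L_mul hx1.1 hx2.1, hx1.2, hx2.2, ht,
        L_two_pow hd, mul_one]

end MP648OD
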