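import Pool.Agent.Lib.MP_648c71_nt.OD.Norm

/-!
# Choice of the shift and of the scaling
-/

open Polynomial

namespace MP648OD

theorem exists_shift (S : Finset ℂ) : ∃ k : ℕ, (∀ z ∈ S, z + k ≠ 0) ∧
    ∀ z ∈ S, ∀ w ∈ S, z ≠ w → (z + k) ^ 2 ≠ (w + k) ^ 2 := by
  have hinf : (Set.range (fun n : ℕ => (n : ℂ))).Infinite := Set.infinite_range_of_injective Nat.cast_injective
  obtain ⟨_, ⟨k, rfl⟩, hk⟩ := hinf.exists_notMem_finset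
    (S.image (fun z => -z) ∪ (S ×ˢ S).image (fun p => -(p.1 + p.2) / 2))
  rw [Finset.mem_union, not_or] at hk
  refine ⟨k, ?_, ?_⟩
  · intro z hz h
    refine hk.1 (Finset.mem_image.2 ⟨z, hz, ?_⟩)
    linear_combination -h
  · intro z hz w hw hzw h
    refine hk.2 (Finset.mem_image.2 ⟨(z, w), Finset.mem_product.2 ⟨hz, hw⟩, ?_⟩)
    have h1 : (z - w) * (z + w + 2 * k) = 0 := by linear_combination h
    rcases mul_eq_zero.1 h1 with h2 | h2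
    · exact absurd (sub_eq_zero.1 h2) hzw
    · change -(z + w) / 2 = (k : ℂ)
      linear_combination -h2 / 2

theorem exists_nat_eval_ne {Q : ℂ[X]} (hQ : Q ≠ 0) : ∃ N : ℕ, N ≠ 0 ∧ Q.eval (N : ℂ) ≠ 0 := by
  have hinf : (Set.range (fun n : ℕ => (n : ℂ))).Infinite := Set.infinite_range_of_injective Nat.cast_injective
  obtain ⟨_, ⟨k, rfl⟩, hk⟩ := hinf.exists_notMem_finset (Q.roots.toFinset ∪ {0})
  rw [Finset.mem_union, not_or, Multiset.mem_toFinset, mem_roots hQ, Finset.mem_singleton] at hk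
  exact ⟨k, by simpa using hk.2, hk.1⟩

/-- first cross-ratio polynomial -/
noncomputable def P1 (u₁ u₂ u₃ v : ℂ) : ℂ[X] :=
  C (u₂ ^ 2 - u₁ ^ 2) * (C (u₃ ^ 2) * X ^ 2 - C 2) - C (v * (u₃ ^ 2 - u₁ ^ 2)) * (C (u₂ ^ 2) * X ^ 2 - C 2)

/-- second cross-ratio polynomial -/
noncomputable def P2 (u₁ u₂ u₃ v : ℂ) : ℂ[X] :=
  C (u₂ - u₁) * (C (u₁ * u₂) * X ^ 2 + C 2) * (C (u₃ ^ 2) * X ^ 2 - C 2) -
    C (v * (u₃ - u₁)) * (C (u₁ * u₃) * X ^ 2 + C 2) * (C (u₂ ^ 2) * X ^ 2 - C 2)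

/-- third cross-ratio polynomial -/
noncomputable def P3 (u₁ u₂ u₃ v : ℂ) : ℂ[X] :=
  C (u₂ ^ 2 - u₁ ^ 2) * (C (u₁ ^ 2 * u₂ ^ 2) * X ^ 4 - C 4) * (C (u₃ ^ 2) * X ^ 2 - C 2) ^ 2 -
    C (v * (u₃ ^ 2 - u₁ ^ 2)) * (C (u₁ ^ 2 * u₃ ^ 2) * X ^ 4 - C 4) * (C (u₂ ^ 2) * X ^ 2 - C 2) ^ 2

theorem P1_ne {u₁ u₂ u₃ : ℂ} (h12 : u₁ ^ 2 ≠ u₂ ^ 2) (h23 : u₂ ^ 2 ≠ u₃ ^ 2) (v : ℂ) : P1 u₁ u₂ u₃ v ≠ 0 := by
  intro h
  have e0 := congrArg (fun p => p.eval 0) h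
  have e1 := congrArg (fun p => p.eval 1) h
  simp only [P1, eval_sub, eval_mul, eval_C, eval_pow, eval_X, eval_zero] at e0 e1
  have h1 : (u₂ ^ 2 - u₁ ^ 2) * (u₃ ^ 2 - u₂ ^ 2) = 0 := by
    linear_combination e1 - e0 + (u₂ ^ 2) * (e0 / 2)
  rcases mul_eq_zero.1 h1 with h2 | h2
  · exact h12 (sub_eq_zero.1 h2).symm
  · exact h23 (sub_eq_zero.1 h2).symm

theorem P2_ne {u₁ u₂ u₃ : ℂ} (h1 : u₁ ≠ 0) (h2 : u₂ ≠ 0) (h3 : u₃ ≠ 0) (h12 : u₁ ≠ u₂) (h23 : u₂ ≠ u₃) (v : ℂ) :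
    P2 u₁ u₂ u₃ v ≠ 0 := by
  intro h
  have e0 := congrArg (fun p => p.eval 0) h
  have e1 := congrArg (fun p => p.eval 1) h
  have e2 := congrArg (fun p => p.eval 2) h
  simp only [P2, eval_sub, eval_add, eval_mul, eval_C, eval_pow, eval_X, eval_zero] at e0 e1 e2
  have hv : v * (u₃ - u₁) = u₂ - u₁ := by linear_combination e0 / 4
  rw [hv] at e1 e2
  have h4 : (u₂ - u₁) * (u₃ - u₂) * (u₁ * u₂ * u₃) = 0 := by
    linear_combination e2 / 12 - e1 / 3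
  have h5 : u₂ - u₁ ≠ 0 := sub_ne_zero.2 h12.symm
  have h6 : u₃ - u₂ ≠ 0 := sub_ne_zero.2 h23.symm
  exact (mul_ne_zero (mul_ne_zero h5 h6) (mul_ne_zero (mul_ne_zero h1 h2) h3)) h4

theorem P3_ne {u₁ u₂ u₃ : ℂ} (h12 : u₁ ^ 2 ≠ u₂ ^ 2) (h23 : u₂ ^ 2 ≠ u₃ ^ 2) (v : ℂ) : P3 u₁ u₂ u₃ v ≠ 0 := by
  intro h
  have e0 := congrArg (fun p => p.eval 0) h
  have e1 := congrArg (fun p => p.eval 1) h
  have e2 := congrArg (fun p => p.eval 2) h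
  have e3 := congrArg (fun p => p.eval 3) h
  simp only [P3, eval_sub, eval_mul, eval_C, eval_pow, eval_X, eval_zero] at e0 e1 e2 e3
  have hv : v * (u₃ ^ 2 - u₁ ^ 2) = u₂ ^ 2 - u₁ ^ 2 := by linear_combination e0 / 16
  rw [hv] at e1 e2 e3
  have h5 : u₂ ^ 2 - u₁ ^ 2 ≠ 0 := sub_ne_zero.2 h12.symm
  have h6 : u₃ ^ 2 - u₂ ^ 2 ≠ 0 := sub_ne_zero.2 h23.symm
  -- `t² (c-b) (t⁶ abc - 4 t² (a+b+c) + 16) = 0` for `t = 1, 2, 3`
  set a := u₁ ^ 2 with ha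
  set b := u₂ ^ 2 with hb
  set c := u₃ ^ 2 with hc
  have q1 : a * b * c - 4 * (a + b + c) + 16 = 0 := by
    have : (b - a) * (c - b) * (a * b * c - 4 * (a + b + c) + 16) = 0 := by
      linear_combination e1
    exact (mul_eq_zero.1 this).resolve_left (mul_ne_zero h5 h6)
  have q2 : 64 * (a * b * c) - 16 * (a + b + c) + 16 = 0 := by
    have : (b - a) * (c - b) * (64 * (a * b * c) - 16 * (a + b + c) + 16) = 0 := by
      linear_combination e2 / 4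
    exact (mul_eq_zero.1 this).resolve_left (mul_ne_zero h5 h6)
  have q3 : 729 * (a * b * c) - 36 * (a + b + c) + 16 = 0 := by
    have : (b - a) * (c - b) * (729 * (a * b * c) - 36 * (a + b + c) + 16) = 0 := by
      linear_combination e3 / 9
    exact (mul_eq_zero.1 this).resolve_left (mul_ne_zero h5 h6)
  have q4 : a * b * c = 4 / 5 := by linear_combination q2 / 60 - q1 / 15
  have q5 : a + b + c = 21 / 5 := by linear_combination (q4 - q1) / 4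
  rw [q4, q5] at q3
  norm_num at q3

/-- the choice of the scaling `N` -/
theorem exists_scaling (S : Finset ℂ) (V : Finset ℂ) {u : ℂ → ℂ} (hu0 : ∀ z ∈ S, u z ≠ 0)
    (hu : ∀ z ∈ S, ∀ w ∈ S, z ≠ w → u z ^ 2 ≠ u w ^ 2) {z₁ z₂ z₃ : ℂ} (h1 : z₁ ∈ S) (h2 : z₂ ∈ S) (h3 : z₃ ∈ S)
    (h12 : z₁ ≠ z₂) (h23 : z₂ ≠ z₃) :
    ∃ N : ℕ, N ≠ 0 ∧ (∀ z ∈ S, ∀ w ∈ S, u z * u w * (N : ℂ) ^ 2 - 2 ≠ 0 ∧ u z * u w * (N : ℂ) ^ 2 + 2 ≠ 0) ∧
      ∀ v ∈ V, (P1 (u z₁) (u z₂) (u z₃) v).eval (N : ℂ) ≠ 0 ∧ (P2 (u z₁) (u z₂) (u z₃) v).eval (N : ℂ) ≠ 0 ∧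
        (P3 (u z₁) (u z₂) (u z₃) v).eval (N : ℂ) ≠ 0 := by
  set Q : ℂ[X] := (∏ z ∈ S, ∏ w ∈ S, (C (u z * u w) * X ^ 2 - C 2) * (C (u z * u w) * X ^ 2 + C 2)) *
    ∏ v ∈ V, (P1 (u z₁) (u z₂) (u z₃) v) * ((P2 (u z₁) (u z₂) (u z₃) v) * (P3 (u z₁) (u z₂) (u z₃) v)) with hQ
  have hQ0 : Q ≠ 0 := by
    refine mul_ne_zero ?_ ?_
    · refine Finset.prod_ne_zero_iff.2 (fun z _ => Finset.prod_ne_zero_iff.2 (fun w _ => mul_ne_zero ?_ ?_))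
      · intro h
        have := congrArg (fun p => p.eval 0) h
        simp at this
      · intro h
        have := congrArg (fun p => p.eval 0) h
        simp at this
    · refine Finset.prod_ne_zero_iff.2 (fun v _ => mul_ne_zero ?_ (mul_ne_zero ?_ ?_))
      · exact P1_ne (hu _ h1 _ h2 h12) (hu _ h2 _ h3 h23) v
      · refine P2_ne (hu0 _ h1) (hu0 _ h2) (hu0 _ h3) ?_ ?_ v
        · intro h
          exact hu _ h1 _ h2 h12 (by rw [h])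
        · intro h
          exact hu _ h2 _ h3 h23 (by rw [h])
      · exact P3_ne (hu _ h1 _ h2 h12) (hu _ h2 _ h3 h23) v
  obtain ⟨N, hN0, hN⟩ := exists_nat_eval_ne hQ0
  refine ⟨N, hN0, ?_, ?_⟩
  · intro z hz w hw
    rw [hQ, eval_mul] at hN
    have h4 := left_ne_zero_of_mul hN
    rw [eval_prod, Finset.prod_ne_zero_iff] at h4
    have h5 := h4 z hz
    rw [eval_prod, Finset.prod_ne_zero_iff] at h5
    have h6 := h5 w hw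
    simp only [eval_sub, eval_add, eval_mul, eval_C, eval_pow, eval_X] at h6
    exact ⟨left_ne_zero_of_mul h6, right_ne_zero_of_mul h6⟩
  · intro v hv
    rw [hQ, eval_mul] at hN
    have h4 := right_ne_zero_of_mul hN
    rw [eval_prod, Finset.prod_ne_zero_iff] at h4
    have h6 := h4 v hv
    rw [eval_mul, eval_mul] at h6
    exact ⟨left_ne_zero_of_mul h6, left_ne_zero_of_mul (right_ne_zero_of_mul h6),
      right_ne_zero_of_mul (right_ne_zero_of_mul h6)⟩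

end MP648OD
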