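import Pool.Agent.Lib.MP_648c71_nt.OD.Arith

/-!
# Quantitative versions
-/

open Polynomial

namespace MP648OD

/-- number of `|n| ≤ N` with sign `s` -/
noncomputable def cnt2 (f : ℤ[X]) (s : ℤ) (N : ℕ) : ℕ :=
  ((Finset.Icc (-(N : ℤ)) N).filter (fun n => L (f.eval n) = s)).card

/-- number of `1 ≤ n ≤ N` with sign `s` -/
noncomputable def cnt1 (f : ℤ[X]) (s : ℤ) (N : ℕ) : ℕ :=
  ((Finset.Icc (1 : ℤ) N).filter (fun n => L (f.eval n) = s)).card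

theorem cnt1_le_cnt2 (f : ℤ[X]) (s : ℤ) (N : ℕ) : cnt1 f s N ≤ cnt2 f s N := by
  unfold cnt1 cnt2
  apply Finset.card_le_card
  intro n hn
  rw [Finset.mem_filter, Finset.mem_Icc] at hn ⊢
  exact ⟨⟨by linarith [hn.1.1, (Nat.cast_nonneg N : (0 : ℤ) ≤ N)], hn.1.2⟩, hn.2⟩

/-- both signs occur at least `√N / 16` times with `|n| ≤ N`, for infinitely many `N` -/
def Dens2 (f : ℤ[X]) : Prop :=
  ∀ K : ℕ, ∃ M : ℕ, K ≤ M ∧ ∀ s : ℤ, s = 1 ∨ s = -1 → M ≤ 8 * cnt2 f s (4 * M ^ 2)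

/-- both signs occur at least `√N / 16` times with `1 ≤ n ≤ N`, for infinitely many `N` -/
def Dens1 (f : ℤ[X]) : Prop :=
  ∀ K : ℕ, ∃ M : ℕ, K ≤ M ∧ ∀ s : ℤ, s = 1 ∨ s = -1 → M ≤ 8 * cnt1 f s (4 * M ^ 2)

theorem Dens1.dens2 {f : ℤ[X]} (h : Dens1 f) : Dens2 f := by
  intro K
  obtain ⟨M, hM, h1⟩ := h K
  exact ⟨M, hM, fun s hs => le_trans (h1 s hs) (Nat.mul_le_mul_left 8 (cnt1_le_cnt2 _ _ _))⟩

/-- not `Dens2`: for all large `M` there is a rare sign -/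
theorem rare_of_not_dens2 {f : ℤ[X]} (h : ¬ Dens2 f) :
    ∃ K : ℕ, ∀ M : ℕ, K ≤ M → ∃ t : ℤ, t * t = 1 ∧ 8 * cnt2 f (-t) (4 * M ^ 2) < M := by
  unfold Dens2 at h
  push Not at h
  obtain ⟨K, hK⟩ := h
  refine ⟨K, fun M hM => ?_⟩
  obtain ⟨s, hs, h1⟩ := hK M hM
  refine ⟨-s, ?_, by rwa [neg_neg]⟩
  rcases hs with rfl | rfl <;> norm_num

theorem rare_of_not_dens1 {f : ℤ[X]} (h : ¬ Dens1 f) :
    ∃ K : ℕ, ∀ M : ℕ, K ≤ M → ∃ t : ℤ, t * t = 1 ∧ 8 * cnt1 f (-t) (4 * M ^ 2) < M := by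
  unfold Dens1 at h
  push Not at h
  obtain ⟨K, hK⟩ := h
  refine ⟨K, fun M hM => ?_⟩
  obtain ⟨s, hs, h1⟩ := hK M hM
  refine ⟨-s, ?_, by rwa [neg_neg]⟩
  rcases hs with rfl | rfl <;> norm_num

theorem count {X₀ M : ℤ} {u₁ u₂ u₃ : ℤ → ℤ} {E₁ E₂ E₃ : Finset ℤ}
    (h1 : Set.InjOn u₁ (Finset.Icc (X₀ + 1) M)) (h2 : Set.InjOn u₂ (Finset.Icc (X₀ + 1) M))
    (h3 : Set.InjOn u₃ (Finset.Icc (X₀ + 1) M))
    (h : ∀ x ∈ Finset.Icc (X₀ + 1) M, u₁ x ∈ E₁ ∨ u₂ x ∈ E₂ ∨ u₃ x ∈ E₃) :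
    M - X₀ ≤ E₁.card + E₂.card + E₃.card := by
  classical
  set I := Finset.Icc (X₀ + 1) M with hI
  have key : ∀ {u : ℤ → ℤ} {E : Finset ℤ}, Set.InjOn u I → (I.filter (fun x => u x ∈ E)).card ≤ E.card := by
    intro u E hu
    refine Finset.card_le_card_of_injOn u ?_ ?_
    · intro x hx
      rw [Finset.mem_coe, Finset.mem_filter] at hx
      exact hx.2
    · intro x hx y hy hxy
      rw [Finset.mem_coe, Finset.mem_filter] at hx hy
      exact hu hx.1 hy.1 hxy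
  have hsub : I ⊆ (I.filter (fun x => u₁ x ∈ E₁) ∪ I.filter (fun x => u₂ x ∈ E₂)) ∪
      I.filter (fun x => u₃ x ∈ E₃) := by
    intro x hx
    simp only [Finset.mem_union, Finset.mem_filter]
    rcases h x hx with h | h | h
    · exact Or.inl (Or.inl ⟨hx, h⟩)
    · exact Or.inl (Or.inr ⟨hx, h⟩)
    · exact Or.inr ⟨hx, h⟩
  have h4 := Finset.card_le_card hsub
  have h5 := Finset.card_union_le (I.filter (fun x => u₁ x ∈ E₁) ∪ I.filter (fun x => u₂ x ∈ E₂))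
    (I.filter (fun x => u₃ x ∈ E₃))
  have h6 := Finset.card_union_le (I.filter (fun x => u₁ x ∈ E₁)) (I.filter (fun x => u₂ x ∈ E₂))
  have h7 := key (E := E₁) h1
  have h8 := key (E := E₂) h2
  have h9 := key (E := E₃) h3
  have h10 : (I.card : ℤ) = (M + 1 - (X₀ + 1)).toNat := by rw [hI, Int.card_Icc]
  have h11 : M + 1 - (X₀ + 1) ≤ ((M + 1 - (X₀ + 1)).toNat : ℤ) := Int.self_le_toNat _
  have h12 : I.card ≤ E₁.card + E₂.card + E₃.card := by omega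
  have h13 : (I.card : ℤ) ≤ E₁.card + E₂.card + E₃.card := by exact_mod_cast h12
  linarith

/-- exceptional set of a polynomial -/
noncomputable def exc2 (f : ℤ[X]) (s : ℤ) (N : ℕ) : Finset ℤ :=
  (Finset.Icc (-(N : ℤ)) N).filter (fun n => L (f.eval n) = s) ∪ f.roots.toFinset

noncomputable def exc1 (f : ℤ[X]) (s : ℤ) (N : ℕ) : Finset ℤ :=
  (Finset.Icc (1 : ℤ) N).filter (fun n => L (f.eval n) = s) ∪ f.roots.toFinset

theorem card_exc2 (f : ℤ[X]) (s : ℤ) (N : ℕ) : (exc2 f s N).card ≤ cnt2 f s N + f.natDegree := by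
  unfold exc2 cnt2
  refine le_trans (Finset.card_union_le _ _) (Nat.add_le_add_left ?_ _)
  exact le_trans (Multiset.toFinset_card_le _) (card_roots' f)

theorem card_exc1 (f : ℤ[X]) (s : ℤ) (N : ℕ) : (exc1 f s N).card ≤ cnt1 f s N + f.natDegree := by
  unfold exc1 cnt1
  refine le_trans (Finset.card_union_le _ _) (Nat.add_le_add_left ?_ _)
  exact le_trans (Multiset.toFinset_card_le _) (card_roots' f)

theorem of_notMem_exc2 {f : ℤ[X]} (hf : f ≠ 0) {t : ℤ} (ht : t * t = 1) {N : ℕ} {n : ℤ} (h1 : -(N : ℤ) ≤ n)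
    (h2 : n ≤ N) (h : n ∉ exc2 f (-t) N) : f.eval n ≠ 0 ∧ L (f.eval n) = t := by
  unfold exc2 at h
  rw [Finset.mem_union, not_or, Finset.mem_filter, Multiset.mem_toFinset, mem_roots hf] at h
  refine ⟨h.2, ?_⟩
  have h3 : L (f.eval n) ≠ -t := fun h4 => h.1 ⟨Finset.mem_Icc.2 ⟨h1, h2⟩, h4⟩
  have h5 : t = 1 ∨ t = -1 := by
    have : (t - 1) * (t + 1) = 0 := by linear_combination ht
    rcases mul_eq_zero.1 this with h | h
    · exact Or.inl (by linarith)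
    · exact Or.inr (by linarith)
  rcases h5 with rfl | rfl
  · rcases L_cases (f.eval n) with h6 | h6
    · exact h6
    · exact absurd h6 h3
  · rcases L_cases (f.eval n) with h6 | h6
    · exact absurd h6 (by simpa using h3)
    · exact h6

theorem of_notMem_exc1 {f : ℤ[X]} (hf : f ≠ 0) {t : ℤ} (ht : t * t = 1) {N : ℕ} {n : ℤ} (h1 : 1 ≤ n)
    (h2 : n ≤ N) (h : n ∉ exc1 f (-t) N) : f.eval n ≠ 0 ∧ L (f.eval n) = t := by
  unfold exc1 at h
  rw [Finset.mem_union, not_or, Finset.mem_filter, Multiset.mem_toFinset, mem_roots hf] at h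
  refine ⟨h.2, ?_⟩
  have h3 : L (f.eval n) ≠ -t := fun h4 => h.1 ⟨Finset.mem_Icc.2 ⟨h1, h2⟩, h4⟩
  have h5 : t = 1 ∨ t = -1 := by
    have : (t - 1) * (t + 1) = 0 := by linear_combination ht
    rcases mul_eq_zero.1 this with h | h
    · exact Or.inl (by linarith)
    · exact Or.inr (by linarith)
  rcases h5 with rfl | rfl
  · rcases L_cases (f.eval n) with h6 | h6
    · exact h6
    · exact absurd h6 h3
  · rcases L_cases (f.eval n) with h6 | h6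
    · exact absurd h6 (by simpa using h3)
    · exact h6

end MP648OD
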