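import Pool.Agent.Lib.MP_648c71_nt.OD.Choice
import Pool.Agent.Lib.MP_648c71_nt.OD.Count

/-!
# The three polynomials
-/

open Polynomial

namespace MP648OD

theorem finrank_adjoinRoot {g : ℤ[X]} (hg : g.Monic) : Module.finrank ℤ (AdjoinRoot g) = g.natDegree := by
  rw [(AdjoinRoot.powerBasis' hg).finrank, AdjoinRoot.powerBasis'_dim]

theorem eval_of_mk_zero {g p : ℤ[X]} (hg : g.Monic) (h : AdjoinRoot.mk g p = 0) {z : ℂ} (hz : z ∈ rts g) :
    p.eval₂ (Int.castRingHom ℂ) z = 0 := by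
  rw [AdjoinRoot.mk_eq_zero] at h
  obtain ⟨q, hq⟩ := h
  rw [hq, eval₂_mul, (mem_rts hg).1 hz, zero_mul]

theorem aeval_mk (g h p : ℤ[X]) : aeval (AdjoinRoot.mk g h) p = AdjoinRoot.mk g (p.comp h) := by
  rw [Polynomial.comp, Polynomial.hom_eval₂, Polynomial.aeval_def]
  congr 1

section

variable {g : ℤ[X]} [Module.Free ℤ (AdjoinRoot g)] [Module.Finite ℤ (AdjoinRoot g)]

theorem dvd_F (h : ℤ[X]) : g ∣ (F (AdjoinRoot.mk g h)).comp h := by
  rw [← AdjoinRoot.mk_eq_zero, ← aeval_mk]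
  exact F_aeval _

theorem F_root (hg : g.Monic) (h : ℤ[X]) {z : ℂ} (hz : z ∈ rts g) :
    (F (AdjoinRoot.mk g h)).eval₂ (Int.castRingHom ℂ) (h.eval₂ (Int.castRingHom ℂ) z) = 0 := by
  have h1 : AdjoinRoot.mk g ((F (AdjoinRoot.mk g h)).comp h) = 0 := by
    rw [← aeval_mk]
    exact F_aeval _
  have := eval_of_mk_zero hg h1 hz
  rwa [eval₂_comp] at this

/-- An inverse up to a nonzero integer -/
theorem exists_inverse (hg : g.Monic) (hs : Squarefree (g.map (Int.castRingHom ℚ))) (r : ℤ[X])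
    (hinj : Set.InjOn (fun z : ℂ => r.eval₂ (Int.castRingHom ℂ) z) (rts g))
    (h0 : ∀ z ∈ rts g, r.eval₂ (Int.castRingHom ℂ) z ≠ 0) :
    ∃ (w : ℤ[X]) (M : ℤ), M ≠ 0 ∧ AdjoinRoot.mk g (r * w) = (M : AdjoinRoot g) := by
  set c := F (AdjoinRoot.mk g r) with hc
  have hdeg : c.natDegree = (rts g).card := by
    rw [hc, F_natDegree, finrank_adjoinRoot hg, card_rts hg hs]
  have hprod := eq_prod (F_monic _) hinj hdeg (fun z hz => F_root hg r hz)
  have hM : c.coeff 0 ≠ 0 := by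
    intro h
    have h1 : (c.map (Int.castRingHom ℂ)).eval 0 = 0 := by
      rw [← coeff_zero_eq_eval_zero, coeff_map, h]
      simp
    rw [hc, hprod, eval_prod, Finset.prod_eq_zero_iff] at h1
    obtain ⟨z, hz, h2⟩ := h1
    rw [eval_sub, eval_X, eval_C, zero_sub, neg_eq_zero] at h2
    exact h0 z hz h2
  refine ⟨c.divX.comp r, -c.coeff 0, neg_ne_zero.2 hM, ?_⟩
  have h1 : AdjoinRoot.mk g (c.comp r) = 0 := by
    rw [← aeval_mk]
    exact F_aeval _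
  have h2 : c.comp r = r * c.divX.comp r + C (c.coeff 0) := by
    conv_lhs => rw [← divX_mul_X_add c]
    rw [add_comp, mul_comp, X_comp, C_comp, mul_comm]
  rw [h2, map_add] at h1
  rw [eq_neg_of_add_eq_zero_left h1]
  simp

end

/-- A polynomial with the two signs -/
def Good (g : ℤ[X]) (B : Finset ℚ[X]) (f : ℤ[X]) : Prop :=
  f.Monic ∧ Squarefree (f.map (Int.castRingHom ℚ)) ∧ f.natDegree = g.natDegree ∧
    Nonempty (AdjoinRoot (f.map (Int.castRingHom ℚ)) ≃ₐ[ℚ] AdjoinRoot (g.map (Int.castRingHom ℚ))) ∧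
    (∀ b ∈ B, ∀ a c e : ℚ, f.map (Int.castRingHom ℚ) ≠ C c * b.comp (C a * X + C e)) ∧
    Dens2 f

/-- the cross ratios of a polynomial -/
noncomputable def cross (b : ℚ[X]) : Finset ℂ :=
  (((b.map (algebraMap ℚ ℂ)).roots.toFinset ×ˢ (b.map (algebraMap ℚ ℂ)).roots.toFinset) ×ˢ
    (b.map (algebraMap ℚ ℂ)).roots.toFinset).image (fun p => (p.1.1 - p.1.2) / (p.1.1 - p.2))

theorem good_of_dens {g : ℤ[X]} [Module.Free ℤ (AdjoinRoot g)] [Module.Finite ℤ (AdjoinRoot g)] (hg : g.Monic)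
    (hs : Squarefree (g.map (Int.castRingHom ℚ))) (hpos : 0 < g.natDegree)
    {h : ℤ[X]} (hinj : Set.InjOn (fun z : ℂ => h.eval₂ (Int.castRingHom ℂ) z) (rts g)) {B : Finset ℚ[X]}
    {z₁ z₂ z₃ : ℂ} (h1 : z₁ ∈ rts g) (h2 : z₂ ∈ rts g) (h3 : z₃ ∈ rts g) (h13 : z₁ ≠ z₃)
    (hcr : ∀ v ∈ B.biUnion cross, h.eval₂ (Int.castRingHom ℂ) z₁ - h.eval₂ (Int.castRingHom ℂ) z₂ ≠
      v * (h.eval₂ (Int.castRingHom ℂ) z₁ - h.eval₂ (Int.castRingHom ℂ) z₃))
    (hb : Dens2 (F (AdjoinRoot.mk g h))) : Good g B (F (AdjoinRoot.mk g h)) := by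
  set f := F (AdjoinRoot.mk g h) with hf
  have hfm : f.Monic := F_monic _
  have hdeg : f.natDegree = g.natDegree := by rw [hf, F_natDegree, finrank_adjoinRoot hg]
  have hdeg' : f.natDegree = (rts g).card := by rw [hdeg, card_rts hg hs]
  have hroot : ∀ z ∈ rts g, f.eval₂ (Int.castRingHom ℂ) (h.eval₂ (Int.castRingHom ℂ) z) = 0 :=
    fun z hz => F_root hg h hz
  refine ⟨hfm, squarefree_of_roots hfm hinj hdeg' hroot, hdeg, iso_of_roots hfm hg hs hdeg hinj (dvd_F h), ?_, hb⟩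
  intro b hbB a c e heq
  have hf0 : f.map (Int.castRingHom ℚ) ≠ 0 := (hfm.map _).ne_zero
  have hc0 : c ≠ 0 := by
    intro h0
    rw [h0, C_0, zero_mul] at heq
    exact hf0 heq
  have hb0 : b ≠ 0 := by
    intro h0
    rw [h0, zero_comp, mul_zero] at heq
    exact hf0 heq
  have ha0 : a ≠ 0 := by
    intro h0
    rw [h0, C_0, zero_mul, zero_add, comp_C, ← C_mul] at heq
    have := congrArg natDegree heq
    rw [natDegree_C, hfm.natDegree_map, hdeg] at this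
    omega
  -- the three numbers `a θ + e` are roots of `b`
  have hbr : ∀ z ∈ rts g, (a : ℂ) * h.eval₂ (Int.castRingHom ℂ) z + (e : ℂ) ∈
      (b.map (algebraMap ℚ ℂ)).roots.toFinset := by
    intro z hz
    rw [Multiset.mem_toFinset, mem_roots (map_ne_zero hb0), IsRoot.def, eval_map]
    have e1 := congrArg (fun p => p.eval₂ (algebraMap ℚ ℂ) (h.eval₂ (Int.castRingHom ℂ) z)) heq
    have e2 : (f.map (Int.castRingHom ℚ)).eval₂ (algebraMap ℚ ℂ) (h.eval₂ (Int.castRingHom ℂ) z) = 0 := by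
      rw [eval₂_map, ← hroot z hz]
      congr 1
    simp only [eval₂_mul, eval₂_comp, eval₂_add, eval₂_C, eval₂_X] at e1
    rw [e2] at e1
    rcases mul_eq_zero.1 e1.symm with e3 | e3
    · exfalso
      apply hc0
      simpa using e3
    · simpa using e3
  have ha0' : (a : ℂ) ≠ 0 := by exact_mod_cast ha0
  have hne : h.eval₂ (Int.castRingHom ℂ) z₁ - h.eval₂ (Int.castRingHom ℂ) z₃ ≠ 0 := by
    intro h0
    exact h13 (hinj h1 h3 (sub_eq_zero.1 h0))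
  set t₁ := h.eval₂ (Int.castRingHom ℂ) z₁ with ht₁
  set t₂ := h.eval₂ (Int.castRingHom ℂ) z₂ with ht₂
  set t₃ := h.eval₂ (Int.castRingHom ℂ) z₃ with ht₃
  refine hcr (((a : ℂ) * t₁ + e - ((a : ℂ) * t₂ + e)) / ((a : ℂ) * t₁ + e - ((a : ℂ) * t₃ + e))) ?_ ?_
  · rw [Finset.mem_biUnion]
    refine ⟨b, hbB, ?_⟩
    unfold cross
    rw [Finset.mem_image]
    refine ⟨(((a : ℂ) * t₁ + e, (a : ℂ) * t₂ + e), (a : ℂ) * t₃ + e), ?_, rfl⟩
    rw [Finset.mem_product, Finset.mem_product]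
    exact ⟨⟨hbr _ h1, hbr _ h2⟩, hbr _ h3⟩
  · have h5 : (a : ℂ) * t₁ + e - ((a : ℂ) * t₃ + e) = a * (t₁ - t₃) := by ring
    have h6 : (a : ℂ) * t₁ + e - ((a : ℂ) * t₂ + e) = a * (t₁ - t₂) := by ring
    rw [h5, h6]
    field_simp

end MP648OD
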