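import Pool.Agent.Lib.MP_648c71_nt.OD.QuantCubic
import Pool.Agent.Lib.MP_648c71_nt.OD.Main

/-!
# Cubic algebras, one-sided version
-/

open Polynomial

namespace MP648OD

section general

variable {R : Type*} [CommRing R] [Module.Free ℤ R] [Module.Finite ℤ R]

theorem norm_neg' (h3 : Module.finrank ℤ R = 3) (y : R) : Algebra.norm ℤ (-y) = -Algebra.norm ℤ y := by
  have h : Algebra.norm ℤ ((-1 : ℤ) : R) = -1 := by
    rw [norm_int, h3]
    norm_num
  have h1 : -y = ((-1 : ℤ) : R) * y := by
    push_cast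
    ring
  rw [h1, map_mul, h]
  ring

theorem F_neg (h3 : Module.finrank ℤ R = 3) (a : R) (n : ℤ) : (F a).eval (-n) = -(F (-a)).eval n := by
  rw [F_eval, F_eval, ← norm_neg' h3]
  congr 1
  push_cast
  ring

/-- the quadratic substitutions in a cubic algebra -/
theorem cubic_ident (h3 : Module.finrank ℤ R = 3) {A : R} {a b c : ℤ}
    (hA : A ^ 3 + a * A ^ 2 + b * A + c = 0) (w s : ℤ) (hs : w * s = -(a * b - c)) :
    (∀ x : ℤ, (F (w * A ^ 2 + (a * b - c : ℤ) * A)).eval (-(w * (x * (s - x)))) =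
      -(w ^ 3 * ((F A).eval x * (F A).eval (s - x)))) ∧
    (∀ x : ℤ, (F (w * A ^ 2 + (a * b - c : ℤ) * A)).eval (-(x * (a ^ 2 - b - w - x)) - a * c) =
      -((F (A ^ 2)).eval x * (F (A ^ 2)).eval (a ^ 2 - b - w - x))) := by
  have hw : Algebra.norm ℤ (w : R) = w ^ 3 := by rw [norm_int, h3]
  have hs' : (w : R) * s = -(a * b - c) := by
    have := congrArg (fun n : ℤ => (n : R)) hs
    push_cast at this
    exact this
  constructor
  · intro x
    rw [F_eval, F_eval, F_eval, ← hw, ← map_mul, ← map_mul, ← norm_neg' h3]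
    congr 1
    push_cast
    linear_combination (-A) * hs'
  · intro x
    rw [F_eval, F_eval, F_eval, ← map_mul, ← norm_neg' h3]
    congr 1
    push_cast
    linear_combination (A - a) * hA

end general

end MP648OD
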