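import Pool.Agent.Lib.MP_648c71_nt.OD.Arith

/-!
# The arithmetic step for cubic polynomials, one-sided version
-/

open Polynomial

namespace MP648OD

/-- both signs occur infinitely often at positive integers -/
def BothPos (f : ℤ[X]) : Prop :=
  {n : ℤ | 0 < n ∧ L (f.eval n) = 1}.Infinite ∧ {n : ℤ | 0 < n ∧ L (f.eval n) = -1}.Infinite

theorem BothPos.both {f : ℤ[X]} (h : BothPos f) : Both f :=
  ⟨h.1.mono (fun _ hn => hn.2), h.2.mono (fun _ hn => hn.2)⟩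

theorem const_of_not_bothPos {f : ℤ[X]} (hf : f ≠ 0) (h : ¬ BothPos f) :
    ∃ s n₀ : ℤ, s * s = 1 ∧ ∀ n, n₀ ≤ n → f.eval n ≠ 0 ∧ L (f.eval n) = s := by
  have h0 : {n : ℤ | f.eval n = 0}.Finite := by
    have := f.rootSet_finite ℤ
    refine this.subset ?_
    intro n hn
    rw [Polynomial.mem_rootSet]
    exact ⟨hf, by simpa [Polynomial.aeval_def] using hn⟩
  obtain ⟨b, hb⟩ := h0.bddAbove
  unfold BothPos at h
  rw [not_and_or, Set.not_infinite, Set.not_infinite] at h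
  rcases h with h | h
  · obtain ⟨c, hc⟩ := h.bddAbove
    refine ⟨-1, max (max b c) 0 + 1, by norm_num, ?_⟩
    intro n hn
    have h1 : b < n := lt_of_le_of_lt (le_trans (le_max_left b c) (le_max_left _ 0)) (by linarith)
    have h2 : c < n := lt_of_le_of_lt (le_trans (le_max_right b c) (le_max_left _ 0)) (by linarith)
    have h3 : 0 < n := lt_of_le_of_lt (le_max_right _ 0) (by linarith)
    refine ⟨fun h4 => absurd (hb h4) (not_le.2 h1), ?_⟩
    rcases L_cases (f.eval n) with h4 | h4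
    · exact absurd (hc ⟨h3, h4⟩) (not_le.2 h2)
    · exact h4
  · obtain ⟨c, hc⟩ := h.bddAbove
    refine ⟨1, max (max b c) 0 + 1, by norm_num, ?_⟩
    intro n hn
    have h1 : b < n := lt_of_le_of_lt (le_trans (le_max_left b c) (le_max_left _ 0)) (by linarith)
    have h2 : c < n := lt_of_le_of_lt (le_trans (le_max_right b c) (le_max_left _ 0)) (by linarith)
    have h3 : 0 < n := lt_of_le_of_lt (le_max_right _ 0) (by linarith)
    refine ⟨fun h4 => absurd (hb h4) (not_le.2 h1), ?_⟩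
    rcases L_cases (f.eval n) with h4 | h4
    · exact h4
    · exact absurd (hc ⟨h3, h4⟩) (not_le.2 h2)

/-- One step: a quadratic substitution -/
theorem step {p p' h : ℤ[X]} {s s' y n₁ n₂ n₃ t c k : ℤ} {w : ℕ} (hk : 0 < k) (hkw : k = 2 ^ w)
    (hp : ∀ n, n₁ ≤ n → p.eval n ≠ 0 ∧ L (p.eval n) = s) (hp' : ∀ n, n₂ ≤ n → p'.eval n ≠ 0 ∧ L (p'.eval n) = s')
    (hh : ∀ n, n₃ ≤ n → h.eval n ≠ 0 ∧ L (h.eval n) = y) (hneg : ∀ n : ℤ, p.eval (-n) = -p'.eval n)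
    (hid : ∀ x : ℤ, h.eval (-(k * (x * (t - x))) - c) = -(k ^ 3 * (p.eval x * p.eval (t - x)))) :
    y = (-1) ^ (3 * w) * (s * s') := by
  set x : ℤ := |n₁| + |n₂| + |n₃| + |t| + |c| + 1 with hx
  have a1 := le_abs_self n₁
  have a2 := le_abs_self n₂
  have a3 := le_abs_self n₃
  have a4 := le_abs_self t
  have a5 := le_abs_self c
  have b1 := abs_nonneg n₁
  have b2 := abs_nonneg n₂
  have b3 := abs_nonneg n₃
  have b4 := abs_nonneg t
  have b5 := abs_nonneg c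
  obtain ⟨q1, q2⟩ := hp x (by linarith)
  obtain ⟨r1, r2⟩ := hp' (x - t) (by linarith)
  have r3 : p.eval (t - x) = -p'.eval (x - t) := by rw [← hneg]; congr 1; ring
  have hbig : n₃ ≤ -(k * (x * (t - x))) - c := by
    have e1 : |n₃| + |c| + 1 ≤ x - t := by linarith
    have e2 : 1 ≤ x := by linarith
    have e3 : x - t ≤ x * (x - t) := by nlinarith
    have e4 : x * (x - t) ≤ k * (x * (x - t)) := by nlinarith
    nlinarith
  obtain ⟨-, y2⟩ := hh _ hbig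
  rw [hid, L_neg, L_mul (pow_ne_zero 3 hk.ne') (mul_ne_zero q1 (by rw [r3]; exact neg_ne_zero.2 r1)),
    L_mul q1 (by rw [r3]; exact neg_ne_zero.2 r1), q2, r3, L_neg, r2] at y2
  have : L (k ^ 3) = (-1) ^ (3 * w) := by
    unfold L
    rw [hkw, ← pow_mul, Int.natAbs_pow]
    have h2 : (2 : ℤ).natAbs = 2 := rfl
    rw [h2, ArithmeticFunction.cardFactors_apply_prime_pow Nat.prime_two, mul_comm w 3]
  rw [← y2, this]

theorem one_of_six {p p' q q' h₁ h₂ : ℤ[X]} {s₁ s₂ u₁ u₂ c : ℤ} (hp0 : p ≠ 0) (hp'0 : p' ≠ 0) (hq0 : q ≠ 0)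
    (hq'0 : q' ≠ 0) (hh1 : h₁ ≠ 0) (hh2 : h₂ ≠ 0) (hp : ∀ n : ℤ, p.eval (-n) = -p'.eval n)
    (hq : ∀ n : ℤ, q.eval (-n) = -q'.eval n)
    (i1 : ∀ x : ℤ, h₁.eval (-(x * (s₁ - x))) = -(p.eval x * p.eval (s₁ - x)))
    (i2 : ∀ x : ℤ, h₂.eval (-(2 * (x * (s₂ - x)))) = -(2 ^ 3 * (p.eval x * p.eval (s₂ - x))))
    (j1 : ∀ x : ℤ, h₁.eval (-(x * (u₁ - x)) - c) = -(q.eval x * q.eval (u₁ - x)))
    (j2 : ∀ x : ℤ, h₂.eval (-(x * (u₂ - x)) - c) = -(q.eval x * q.eval (u₂ - x))) :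
    BothPos p ∨ BothPos p' ∨ BothPos q ∨ BothPos q' ∨ BothPos h₁ ∨ BothPos h₂ := by
  by_contra hcon
  simp only [not_or] at hcon
  obtain ⟨c1, c2, c3, c4, c5, c6⟩ := hcon
  obtain ⟨s, n₁, hs, k1⟩ := const_of_not_bothPos hp0 c1
  obtain ⟨s', n₂, hs', k2⟩ := const_of_not_bothPos hp'0 c2
  obtain ⟨t, n₃, ht, k3⟩ := const_of_not_bothPos hq0 c3
  obtain ⟨t', n₄, ht', k4⟩ := const_of_not_bothPos hq'0 c4
  obtain ⟨y, n₅, hy, k5⟩ := const_of_not_bothPos hh1 c5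
  obtain ⟨z, n₆, hz, k6⟩ := const_of_not_bothPos hh2 c6
  have e1 := step (k := 1) (w := 0) (c := 0) one_pos (by norm_num) k1 k2 k5 hp (t := s₁)
    (fun x => by rw [sub_zero, one_mul, i1]; ring)
  have e2 := step (k := 2) (w := 1) (c := 0) two_pos (by norm_num) k1 k2 k6 hp (t := s₂)
    (fun x => by rw [sub_zero, i2])
  have e3 := step (k := 1) (w := 0) (c := c) one_pos (by norm_num) k3 k4 k5 hq (t := u₁)
    (fun x => by rw [one_mul, j1]; ring)
  have e4 := step (k := 1) (w := 0) (c := c) one_pos (by norm_num) k3 k4 k6 hq (t := u₂)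
    (fun x => by rw [one_mul, j2]; ring)
  have hss : (s * s') * (s * s') = 1 := by linear_combination s' * s' * hs + hs'
  norm_num at e1 e2 e3 e4
  have h0 : s * s' = 0 := by linarith
  rw [h0] at hss
  norm_num at hss

end MP648OD
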