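import Pool.Agent.Lib.MP_648c71_nt.OD.Cubic

/-!
# Existence in cubic algebras, one-sided version
-/

open Polynomial

namespace MP648OD

/-- three distinct numbers whose cross ratio avoids `V` -/
def Nice (V : Finset ℂ) (a : Fin 3 → ℂ) : Prop :=
  a 0 ≠ a 1 ∧ a 0 ≠ a 2 ∧ a 1 ≠ a 2 ∧ ∀ v ∈ V, a 0 - a 1 ≠ v * (a 0 - a 2)

theorem Nice.affine {V : Finset ℂ} {a b : Fin 3 → ℂ} (h : Nice V a) {l m : ℂ} (hl : l ≠ 0)
    (hb : ∀ i, b i = l * a i + m) : Nice V b := by
  obtain ⟨h1, h2, h3, h4⟩ := h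
  refine ⟨?_, ?_, ?_, ?_⟩
  · rw [hb, hb]
    intro h
    exact h1 (mul_left_cancel₀ hl (by linear_combination h))
  · rw [hb, hb]
    intro h
    exact h2 (mul_left_cancel₀ hl (by linear_combination h))
  · rw [hb, hb]
    intro h
    exact h3 (mul_left_cancel₀ hl (by linear_combination h))
  · intro v hv h
    rw [hb, hb, hb] at h
    exact h4 v hv (mul_left_cancel₀ hl (by linear_combination h))

theorem nice_pencil (V : Finset ℂ) (A B : Fin 3 → ℂ) (h01 : A 0 ≠ A 1) (h02 : A 0 ≠ A 2) (h12 : A 1 ≠ A 2)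
    (hV : ∀ v ∈ V, ¬ (A 0 - A 1 = v * (A 0 - A 2) ∧ B 0 - B 1 = v * (B 0 - B 2))) :
    ∃ T : Finset ℂ, ∀ t : ℂ, t ∉ T → Nice V (fun i => B i + t * A i) := by
  classical
  refine ⟨{-(B 0 - B 1) / (A 0 - A 1), -(B 0 - B 2) / (A 0 - A 2), -(B 1 - B 2) / (A 1 - A 2)} ∪
    V.image (fun v => -((B 0 - B 1) - v * (B 0 - B 2)) / ((A 0 - A 1) - v * (A 0 - A 2))), ?_⟩
  intro t ht
  simp only [Finset.mem_union, Finset.mem_insert, Finset.mem_singleton, Finset.mem_image, not_or, not_exists,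
    not_and] at ht
  obtain ⟨⟨t1, t2, t3⟩, t4⟩ := ht
  refine ⟨?_, ?_, ?_, ?_⟩
  · intro h
    apply t1
    rw [eq_div_iff (sub_ne_zero.2 h01)]
    linear_combination h
  · intro h
    apply t2
    rw [eq_div_iff (sub_ne_zero.2 h02)]
    linear_combination h
  · intro h
    apply t3
    rw [eq_div_iff (sub_ne_zero.2 h12)]
    linear_combination h
  · intro v hv h
    change B 0 + t * A 0 - (B 1 + t * A 1) = v * (B 0 + t * A 0 - (B 2 + t * A 2)) at h
    by_cases hd : (A 0 - A 1) - v * (A 0 - A 2) = 0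
    · apply hV v hv
      refine ⟨sub_eq_zero.1 hd, ?_⟩
      linear_combination h - t * hd
    · apply t4 v hv
      rw [div_eq_iff hd]
      linear_combination -h

theorem exists_nat_notMem (T : Finset ℂ) : ∃ k : ℕ, (k : ℂ) ∉ T := by
  have hinf : (Set.range (fun n : ℕ => (n : ℂ))).Infinite := Set.infinite_range_of_injective Nat.cast_injective
  obtain ⟨_, ⟨k, rfl⟩, hk⟩ := hinf.exists_notMem_finset T
  exact ⟨k, hk⟩

theorem exists_even_sq_notMem (T : Finset ℂ) : ∃ m : ℕ, m ≠ 0 ∧ ((2 * m : ℕ) : ℂ) ^ 2 ∉ T := by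
  have hinj : Function.Injective (fun n : ℕ => ((2 * n : ℕ) : ℂ) ^ 2) := by
    intro a b h
    have h1 : ((2 * a : ℕ) : ℂ) ^ 2 = ((2 * b : ℕ) : ℂ) ^ 2 := h
    have h2 : (2 * a) ^ 2 = (2 * b) ^ 2 := by exact_mod_cast h1
    have h3 := Nat.pow_left_injective (n := 2) (by norm_num) h2
    omega
  have hinf : (Set.range (fun n : ℕ => ((2 * n : ℕ) : ℂ) ^ 2)).Infinite := Set.infinite_range_of_injective hinj
  obtain ⟨_, ⟨k, rfl⟩, hk⟩ := hinf.exists_notMem_finset (T ∪ {0})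
  rw [Finset.mem_union, not_or, Finset.mem_singleton] at hk
  refine ⟨k, ?_, hk.1⟩
  rintro rfl
  exact hk.2 (by simp)

/-- the choice of the parameters -/
theorem exists_params (V : Finset ℂ) {z : Fin 3 → ℂ} (h01 : z 0 ≠ z 1) (h02 : z 0 ≠ z 2) (h12 : z 1 ≠ z 2) :
    ∃ t k : ℕ, Nice V (fun i => z i ^ 2 + t * z i + k) ∧ Nice V (fun i => (z i ^ 2 + t * z i + k) ^ 2) := by
  obtain ⟨T1, hT1⟩ := nice_pencil V z (fun i => z i ^ 2) h01 h02 h12 (by
    rintro v - ⟨e1, e2⟩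
    have e3 : (z 0 - z 2) * (v * (z 2 - z 1)) = 0 := by
      linear_combination (z 0 + z 1) * e1 - e2
    rcases mul_eq_zero.1 e3 with e4 | e4
    · exact h02 (sub_eq_zero.1 e4)
    · rcases mul_eq_zero.1 e4 with e5 | e5
      · rw [e5, zero_mul] at e1
        exact h01 (sub_eq_zero.1 e1)
      · exact h12 (sub_eq_zero.1 e5).symm)
  obtain ⟨t, ht⟩ := exists_nat_notMem T1
  have hN1 := hT1 t ht
  set y : Fin 3 → ℂ := fun i => z i ^ 2 + t * z i with hy
  obtain ⟨T2, hT2⟩ := nice_pencil V y (fun i => y i ^ 2 / 2) hN1.1 hN1.2.1 hN1.2.2.1 (by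
    rintro v hv ⟨e1, -⟩
    exact hN1.2.2.2 v hv e1)
  obtain ⟨k, hk⟩ := exists_nat_notMem T2
  refine ⟨t, k, hN1.affine (l := 1) (m := k) one_ne_zero (fun i => by simp [hy]), ?_⟩
  refine (hT2 k hk).affine (l := 2) (m := k ^ 2) two_ne_zero ?_
  intro i
  simp only [hy]
  ring

theorem exists_good_cubic (g : ℤ[X]) (hg : g.Monic) (hs : Squarefree (g.map (Int.castRingHom ℚ)))
    (h3 : g.natDegree = 3) (B : Finset ℚ[X]) : ∃ f : ℤ[X], Good g B f ∧ Dens1 f := by
  have := hg.free_adjoinRoot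
  have := hg.finite_adjoinRoot
  have hrank : Module.finrank ℤ (AdjoinRoot g) = 3 := by rw [finrank_adjoinRoot hg, h3]
  have hcard : (rts g).card = 3 := by rw [card_rts hg hs, h3]
  obtain ⟨z₁, z₂, z₃, h12, h13, h23, hS⟩ := Finset.card_eq_three.1 hcard
  set V := B.biUnion cross with hV
  set z : Fin 3 → ℂ := ![z₁, z₂, z₃] with hz
  have hzS : ∀ i, z i ∈ rts g := by
    intro i
    rw [hS]
    fin_cases i <;> simp [hz]
  have hSz : ∀ x ∈ rts g, ∃ i, x = z i := by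
    intro x hx
    rw [hS] at hx
    simp only [Finset.mem_insert, Finset.mem_singleton] at hx
    rcases hx with rfl | rfl | rfl
    · exact ⟨0, rfl⟩
    · exact ⟨1, rfl⟩
    · exact ⟨2, rfl⟩
  obtain ⟨t, k, hN1, hN2⟩ := exists_params V (z := z) h12 h13 h23
  -- the package for one element
  have key : ∀ h : ℤ[X], Nice V (fun i => h.eval₂ (Int.castRingHom ℂ) (z i)) →
      Dens1 (F (AdjoinRoot.mk g h)) → ∃ f : ℤ[X], Good g B f ∧ Dens1 f := by
    intro h hn hb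
    refine ⟨_, good_of_dens hg hs (by omega) ?_ (hzS 0) (hzS 1) (hzS 2) h13 ?_ hb.dens2, hb⟩
    · intro x hx y hy hxy
      obtain ⟨i, rfl⟩ := hSz x hx
      obtain ⟨j, rfl⟩ := hSz y hy
      obtain ⟨n1, n2, n3, -⟩ := hn
      fin_cases i <;> fin_cases j <;>
        first
        | rfl
        | exact absurd hxy n1
        | exact absurd hxy.symm n1
        | exact absurd hxy n2
        | exact absurd hxy.symm n2
        | exact absurd hxy n3
        | exact absurd hxy.symm n3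
    · exact hn.2.2.2
  -- the element
  set α : ℤ[X] := X ^ 2 + C (t : ℤ) * X + C (k : ℤ) with hα
  set y : Fin 3 → ℂ := fun i => z i ^ 2 + t * z i + k with hy
  have αz : ∀ i, α.eval₂ (Int.castRingHom ℂ) (z i) = y i := by
    intro i
    simp [hα, hy, eval₂_add, eval₂_mul, eval₂_pow]
  set P := F (AdjoinRoot.mk g α) with hP
  have hPm : P.Monic := F_monic _
  have hPd : P.natDegree = 3 := by rw [hP, F_natDegree, hrank]
  have hinj : Set.InjOn (fun x : ℂ => α.eval₂ (Int.castRingHom ℂ) x) (rts g) := by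
    intro x hx y' hy' hxy
    obtain ⟨i, rfl⟩ := hSz x hx
    obtain ⟨j, rfl⟩ := hSz y' hy'
    simp only [αz] at hxy
    obtain ⟨n1, n2, n3, -⟩ := hN1
    fin_cases i <;> fin_cases j <;>
      first
      | rfl
      | exact absurd hxy n1
      | exact absurd hxy.symm n1
      | exact absurd hxy n2
      | exact absurd hxy.symm n2
      | exact absurd hxy n3
      | exact absurd hxy.symm n3
  have hprod := eq_prod hPm hinj (by rw [hPd, hcard]) (fun x hx => F_root hg α hx)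
  set a := P.coeff 2 with ha
  set b := P.coeff 1 with hb
  set c := P.coeff 0 with hc
  have hPexp : P = X ^ 3 + C a * X ^ 2 + C b * X + C c := by
    conv_lhs => rw [P.as_sum_range_C_mul_X_pow, hPd]
    have h1 : P.coeff 3 = 1 := by
      have := hPm.coeff_natDegree
      rwa [hPd] at this
    simp only [Finset.sum_range_succ, Finset.sum_range_zero]
    rw [h1, ← ha, ← hb, ← hc]
    simp
    ring
  have hrel : (AdjoinRoot.mk g α) ^ 3 + a * (AdjoinRoot.mk g α) ^ 2 + b * (AdjoinRoot.mk g α) + c = 0 := by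
    have h1 := F_aeval (AdjoinRoot.mk g α)
    rw [← hP, hPexp] at h1
    simpa using h1
  -- `e ≠ 0`
  have hev : ∀ x : ℂ, x ^ 3 + a * x ^ 2 + b * x + c = (x - y 0) * (x - y 1) * (x - y 2) := by
    intro x
    have h1 := congrArg (fun p => p.eval x) hprod
    have h2 : (P.map (Int.castRingHom ℂ)).eval x = x ^ 3 + a * x ^ 2 + b * x + c := by
      rw [hPexp]
      simp
    simp only [h2, hS, eval_prod] at h1
    rw [h1, Finset.prod_insert (by simp [h12, h13]), Finset.prod_insert (by simp [h23]), Finset.prod_singleton]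
    have e0 := αz 0
    have e1 := αz 1
    have e2 := αz 2
    simp only [hz, Matrix.cons_val_zero, Matrix.cons_val_one, Matrix.cons_val] at e0 e1 e2
    simp only [eval_sub, eval_X, eval_C, e0, e1, e2]
    ring
  have he : ((a * b - c : ℤ) : ℂ) = -((y 0 + y 1) * (y 0 + y 2) * (y 1 + y 2)) := by
    have c0 := hev 0
    have c1 := hev 1
    have c2 := hev (-1)
    have ha' : (a : ℂ) = -(y 0 + y 1 + y 2) := by linear_combination (c1 + c2) / 2 - c0
    have hb' : (b : ℂ) = y 0 * y 1 + y 0 * y 2 + y 1 * y 2 := by linear_combination (c1 - c2) / 2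
    have hc' : (c : ℂ) = -(y 0 * y 1 * y 2) := by linear_combination c0
    push_cast
    rw [ha', hb', hc']
    ring
  set e : ℤ := a * b - c with he_def
  have he0 : (e : ℂ) ≠ 0 := by
    rw [he]
    obtain ⟨n1, n2, n3, -⟩ := hN2
    refine neg_ne_zero.2 (mul_ne_zero (mul_ne_zero ?_ ?_) ?_)
    · intro h
      exact n1 (by linear_combination (y 0 - y 1) * h)
    · intro h
      exact n2 (by linear_combination (y 0 - y 2) * h)
    · intro h
      exact n3 (by linear_combination (y 1 - y 2) * h)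
  have hNe : Nice V (fun i => (e : ℂ) * y i) := hN1.affine (m := 0) he0 (fun i => by simp [hy])
  obtain ⟨T1, hT1⟩ := nice_pencil V (fun i => (e : ℂ) * y i) (fun i => 1 * y i ^ 2) hNe.1 hNe.2.1 hNe.2.2.1
    (by rintro v hv ⟨e1, -⟩; exact hNe.2.2.2 v hv e1)
  obtain ⟨T2, hT2⟩ := nice_pencil V (fun i => (e : ℂ) * y i) (fun i => 2 * y i ^ 2) hNe.1 hNe.2.1 hNe.2.2.1
    (by rintro v hv ⟨e1, -⟩; exact hNe.2.2.2 v hv e1)
  obtain ⟨m, hm0, hm⟩ := exists_even_sq_notMem (T1 ∪ T2)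
  rw [Finset.mem_union, not_or] at hm
  set N : ℕ := 2 * m with hN
  have hN0 : (N : ℂ) ≠ 0 := by
    rw [hN]
    exact_mod_cast (by omega : 2 * m ≠ 0)
  have hNZ : (N : ℤ) = 2 * m := by
    rw [hN]
    push_cast
    ring
  -- the scaled element
  set A : ℤ[X] := C (N : ℤ) * α with hA
  have Az : ∀ i, A.eval₂ (Int.castRingHom ℂ) (z i) = N * y i := by
    intro i
    rw [hA, eval₂_mul, αz, eval₂_C]
    simp
  have hmkA : AdjoinRoot.mk g A = (N : AdjoinRoot g) * AdjoinRoot.mk g α := by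
    rw [hA, map_mul]
    congr 1
  have hArel : (AdjoinRoot.mk g A) ^ 3 + ((N * a : ℤ) : AdjoinRoot g) * (AdjoinRoot.mk g A) ^ 2 +
      ((N ^ 2 * b : ℤ) : AdjoinRoot g) * (AdjoinRoot.mk g A) + ((N ^ 3 * c : ℤ) : AdjoinRoot g) = 0 := by
    rw [hmkA]
    push_cast
    linear_combination ((N : AdjoinRoot g) ^ 3) * hrel
  have hE : (N * a : ℤ) * (N ^ 2 * b) - N ^ 3 * c = N ^ 3 * e := by rw [he_def]; ring
  obtain ⟨i1, j1⟩ := cubic_ident hrank hArel 1 (-(N ^ 3 * e)) (by rw [hE]; ring)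
  obtain ⟨i2, j2⟩ := cubic_ident hrank hArel 2 (-(4 * m ^ 3 * e)) (by rw [hE, hNZ]; ring)
  rw [hE] at i1 j1 i2 j2
  have hη : ∀ w : ℤ, (w : AdjoinRoot g) * (AdjoinRoot.mk g A) ^ 2 + ((N ^ 3 * e : ℤ) : AdjoinRoot g) *
      AdjoinRoot.mk g A = AdjoinRoot.mk g (C w * A ^ 2 + C (N ^ 3 * e : ℤ) * A) := by
    intro w
    rw [map_add, map_mul, map_mul, map_pow]
    congr 1
  have hη1 := hη 1
  have hη2 := hη 2
  rw [hη1] at i1 j1
  rw [hη2] at i2 j2
  have hηz : ∀ (w : ℤ) (i : Fin 3), (C w * A ^ 2 + C (N ^ 3 * e : ℤ) * A).eval₂ (Int.castRingHom ℂ) (z i) =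
      (N : ℂ) ^ 2 * (w * y i ^ 2 + (N : ℂ) ^ 2 * (e * y i)) := by
    intro w i
    rw [eval₂_add, eval₂_mul, eval₂_mul, eval₂_pow, Az, eval₂_C, eval₂_C]
    simp only [eq_intCast]
    push_cast
    ring
  have hneg1 : -(AdjoinRoot.mk g A) = AdjoinRoot.mk g (-A) := (map_neg _ _).symm
  have hneg2 : -(AdjoinRoot.mk g A) ^ 2 = AdjoinRoot.mk g (-(A ^ 2)) := by rw [map_neg, map_pow]
  have hsq : (AdjoinRoot.mk g A) ^ 2 = AdjoinRoot.mk g (A ^ 2) := (map_pow _ _ _).symm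
  have hp := F_neg hrank (AdjoinRoot.mk g A)
  have hq := F_neg hrank ((AdjoinRoot.mk g A) ^ 2)
  rw [hneg1] at hp
  rw [hneg2, hsq] at hq
  rw [hsq] at j1 j2
  rcases one_of_six_quant (s₁ := -(N ^ 3 * e)) (s₂ := -(4 * m ^ 3 * e)) (u₁ := (N * a) ^ 2 - N ^ 2 * b - 1)
    (u₂ := (N * a) ^ 2 - N ^ 2 * b - 2) (c := (N * a) * (N ^ 3 * c)) (F_monic (AdjoinRoot.mk g A)).ne_zero
    (F_monic (AdjoinRoot.mk g (-A))).ne_zero (F_monic (AdjoinRoot.mk g (A ^ 2))).ne_zero
    (F_monic (AdjoinRoot.mk g (-(A ^ 2)))).ne_zero hp hq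
    (fun x => by rw [← one_mul (x * (-(N ^ 3 * e) - x)), i1]; ring) i2 j1 j2 with hb | hb | hb | hb | hb | hb
  · exact key _ (hN1.affine (l := N) (m := 0) hN0 (fun i => by rw [Az, add_zero])) hb
  · exact key _ (hN1.affine (l := -N) (m := 0) (neg_ne_zero.2 hN0) (fun i => by
      rw [eval₂_neg, Az, add_zero]; ring)) hb
  · exact key _ (hN2.affine (l := N ^ 2) (m := 0) (pow_ne_zero 2 hN0) (fun i => by
      rw [eval₂_pow, Az, add_zero]; ring)) hb
  · exact key _ (hN2.affine (l := -N ^ 2) (m := 0) (neg_ne_zero.2 (pow_ne_zero 2 hN0)) (fun i => by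
      rw [eval₂_neg, eval₂_pow, Az, add_zero]; ring)) hb
  · refine key _ ((hT1 _ hm.1).affine (l := N ^ 2) (m := 0) (pow_ne_zero 2 hN0) (fun i => ?_)) hb
    rw [hηz, add_zero]
    push_cast
    ring
  · refine key _ ((hT2 _ hm.2).affine (l := N ^ 2) (m := 0) (pow_ne_zero 2 hN0) (fun i => ?_)) hb
    rw [hηz, add_zero]
    push_cast
    ring

end MP648OD
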