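import Pool.Agent.Lib.MP_648c71_nt.OD.Count

/-!
# Quantitative version of the two-sided step
-/

open Polynomial

namespace MP648OD

theorem one_of_three_quant {f₁ f₂ f₃ : ℤ[X]} {d : ℕ} {D : ℤ} (hd : Odd d) (h1 : f₁ ≠ 0) (h2 : f₂ ≠ 0)
    (e1 : ∀ x : ℤ, f₃.eval (x ^ 2 + 2 * D * x) = -(f₁.eval x * f₁.eval (-x - 2 * D)))
    (e2 : ∀ x : ℤ, f₃.eval (2 * x ^ 2) = -(2 ^ d * (f₂.eval x * f₂.eval (-x)))) :
    Dens2 f₁ ∨ Dens2 f₂ ∨ Dens2 f₃ := by
  by_contra hcon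
  simp only [not_or] at hcon
  obtain ⟨c1, c2, c3⟩ := hcon
  obtain ⟨K₁, k1⟩ := rare_of_not_dens2 c1
  obtain ⟨K₂, k2⟩ := rare_of_not_dens2 c2
  obtain ⟨K₃, k3⟩ := rare_of_not_dens2 c3
  set X₀ : ℕ := 2 * D.natAbs + 1 with hX₀
  set M : ℕ := K₁ + K₂ + K₃ + 16 * (f₁.natDegree + f₂.natDegree) + 8 * X₀ + 1 with hM
  obtain ⟨t₁, ht1, r1⟩ := k1 M (by omega)
  obtain ⟨t₂, ht2, r2⟩ := k2 M (by omega)
  obtain ⟨t₃, ht3, r3⟩ := k3 M (by omega)
  have hDabs : |D| = (D.natAbs : ℤ) := Int.abs_eq_natAbs D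
  have hD1 : D ≤ D.natAbs := by rw [← hDabs]; exact le_abs_self D
  have hD2 : -(D.natAbs : ℤ) ≤ D := by rw [← hDabs]; exact neg_abs_le D
  have hXM : (X₀ : ℤ) ≤ M := by exact_mod_cast (by omega : X₀ ≤ M)
  have hX0 : (X₀ : ℤ) = 2 * D.natAbs + 1 := by rw [hX₀]; push_cast; ring
  have hDn : (0 : ℤ) ≤ D.natAbs := by positivity
  have hN : ((4 * M ^ 2 : ℕ) : ℤ) = 4 * (M : ℤ) ^ 2 := by push_cast; ring
  have h3 : t₃ = 1 ∨ t₃ = -1 := by
    have : (t₃ - 1) * (t₃ + 1) = 0 := by linear_combination ht3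
    rcases mul_eq_zero.1 this with h | h
    · exact Or.inl (by linarith)
    · exact Or.inr (by linarith)
  rcases h3 with rfl | rfl
  · -- the dominating sign of `f₃` is `1`; use `f₂`
    have hc := count (X₀ := (X₀ : ℤ)) (M := (M : ℤ)) (u₁ := fun x => x) (u₂ := fun x => -x)
      (u₃ := fun x => 2 * x ^ 2) (E₁ := exc2 f₂ (-t₂) (4 * M ^ 2)) (E₂ := exc2 f₂ (-t₂) (4 * M ^ 2))
      (E₃ := (Finset.Icc (-((4 * M ^ 2 : ℕ) : ℤ)) ((4 * M ^ 2 : ℕ) : ℤ)).filter (fun n => L (f₃.eval n) = -1))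
      (fun x _ y _ h => h) (fun x _ y _ h => neg_injective h) (by
        intro x hx y hy hxy
        rw [Finset.mem_coe, Finset.mem_Icc] at hx hy
        have h3 : 2 * x ^ 2 = 2 * y ^ 2 := hxy
        have h4 : (x - y) * (x + y) = 0 := by nlinarith
        rcases mul_eq_zero.1 h4 with h5 | h5
        · linarith
        · exfalso
          linarith [hx.1, hy.1]) (by
        intro x hx
        rw [Finset.mem_Icc] at hx
        obtain ⟨x1, x2⟩ := hx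
        have x0 : 0 < x := by linarith
        by_contra hn
        rw [not_or, not_or] at hn
        obtain ⟨n1, n2, n3⟩ := hn
        have b1 : x ≤ ((4 * M ^ 2 : ℕ) : ℤ) := by rw [hN]; nlinarith
        obtain ⟨p1, p2⟩ := of_notMem_exc2 h2 ht2 (by linarith) b1 n1
        obtain ⟨q1, q2⟩ := of_notMem_exc2 h2 ht2 (n := -x) (by linarith) (by linarith) n2
        apply n3
        rw [Finset.mem_filter, Finset.mem_Icc]
        refine ⟨⟨by rw [hN]; nlinarith, by rw [hN]; nlinarith⟩, ?_⟩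
        rw [e2, L_neg, L_mul (by positivity) (mul_ne_zero p1 q1), L_mul p1 q1, p2, q2, ht2, L_two_pow hd,
          mul_one])
    have h6 := card_exc2 f₂ (-t₂) (4 * M ^ 2)
    have h7 : ((Finset.Icc (-((4 * M ^ 2 : ℕ) : ℤ)) ((4 * M ^ 2 : ℕ) : ℤ)).filter
      (fun n => L (f₃.eval n) = -1)).card = cnt2 f₃ (-1) (4 * M ^ 2) := rfl
    rw [h7] at hc
    have hc' : (M : ℤ) ≤ ((exc2 f₂ (-t₂) (4 * M ^ 2)).card + (exc2 f₂ (-t₂) (4 * M ^ 2)).card +
      cnt2 f₃ (-1) (4 * M ^ 2) + X₀ : ℕ) := by push_cast; linarith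
    have hc'' : M ≤ (exc2 f₂ (-t₂) (4 * M ^ 2)).card + (exc2 f₂ (-t₂) (4 * M ^ 2)).card +
      cnt2 f₃ (-1) (4 * M ^ 2) + X₀ := by exact_mod_cast hc'
    omega
  · -- the dominating sign of `f₃` is `-1`; use `f₁`
    rw [neg_neg] at r3
    have hc := count (X₀ := (X₀ : ℤ)) (M := (M : ℤ)) (u₁ := fun x => x) (u₂ := fun x => -x - 2 * D)
      (u₃ := fun x => x ^ 2 + 2 * D * x) (E₁ := exc2 f₁ (-t₁) (4 * M ^ 2)) (E₂ := exc2 f₁ (-t₁) (4 * M ^ 2))
      (E₃ := (Finset.Icc (-((4 * M ^ 2 : ℕ) : ℤ)) ((4 * M ^ 2 : ℕ) : ℤ)).filter (fun n => L (f₃.eval n) = 1))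
      (fun x _ y _ h => h) (by
        intro x _ y _ h
        have : -x - 2 * D = -y - 2 * D := h
        linarith) (by
        intro x hx y hy hxy
        rw [Finset.mem_coe, Finset.mem_Icc] at hx hy
        have h3 : x ^ 2 + 2 * D * x = y ^ 2 + 2 * D * y := hxy
        have h4 : (x - y) * (x + y + 2 * D) = 0 := by linear_combination h3
        rcases mul_eq_zero.1 h4 with h5 | h5
        · linarith
        · exfalso
          linarith [hx.1, hy.1]) (by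
        intro x hx
        rw [Finset.mem_Icc] at hx
        obtain ⟨x1, x2⟩ := hx
        have x0 : 0 < x := by linarith
        by_contra hn
        rw [not_or, not_or] at hn
        obtain ⟨n1, n2, n3⟩ := hn
        have b1 : x ≤ ((4 * M ^ 2 : ℕ) : ℤ) := by rw [hN]; nlinarith
        have b2 : x + 2 * D.natAbs ≤ ((4 * M ^ 2 : ℕ) : ℤ) := by rw [hN]; nlinarith
        obtain ⟨p1, p2⟩ := of_notMem_exc2 h1 ht1 (by linarith) b1 n1
        obtain ⟨q1, q2⟩ := of_notMem_exc2 h1 ht1 (n := -x - 2 * D) (by linarith) (by linarith) n2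
        apply n3
        rw [Finset.mem_filter, Finset.mem_Icc]
        have b3 : 0 ≤ x * (x + 2 * D) := mul_nonneg x0.le (by linarith)
        have b4 : x * (x + 2 * D) ≤ M * (2 * M) := by
          apply mul_le_mul x2 (by linarith) (by linarith) (by linarith)
        have b5 : x ^ 2 + 2 * D * x = x * (x + 2 * D) := by ring
        refine ⟨⟨by rw [hN]; nlinarith, by rw [hN]; nlinarith⟩, ?_⟩
        rw [e1, L_neg, L_mul p1 q1, p2, q2, ht1])
    have h6 := card_exc2 f₁ (-t₁) (4 * M ^ 2)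
    have h7 : ((Finset.Icc (-((4 * M ^ 2 : ℕ) : ℤ)) ((4 * M ^ 2 : ℕ) : ℤ)).filter
      (fun n => L (f₃.eval n) = 1)).card = cnt2 f₃ 1 (4 * M ^ 2) := rfl
    rw [h7] at hc
    have hc' : (M : ℤ) ≤ ((exc2 f₁ (-t₁) (4 * M ^ 2)).card + (exc2 f₁ (-t₁) (4 * M ^ 2)).card +
      cnt2 f₃ 1 (4 * M ^ 2) + X₀ : ℕ) := by push_cast; linarith
    have hc'' : M ≤ (exc2 f₁ (-t₁) (4 * M ^ 2)).card + (exc2 f₁ (-t₁) (4 * M ^ 2)).card +
      cnt2 f₃ 1 (4 * M ^ 2) + X₀ := by exact_mod_cast hc'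
    omega

end MP648OD
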