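import Pool.Agent.Lib.MP_648c71_nt.OD.Main
import Pool.Agent.Lib.MP_648c71_nt.OD.QuantOdd

/-!
# Existence
-/

open Polynomial

namespace MP648OD

theorem cross₁ {x₁ x₂ x₃ w₁ w₂ w₃ M v : ℂ} (h1 : (x₁ ^ 2 - 2) * w₁ = M) (h2 : (x₂ ^ 2 - 2) * w₂ = M)
    (h3 : (x₃ ^ 2 - 2) * w₃ = M) (hM : M ≠ 0) (E : 4 * w₁ - 4 * w₂ = v * (4 * w₁ - 4 * w₃)) :
    (x₂ ^ 2 - x₁ ^ 2) * (x₃ ^ 2 - 2) - v * (x₃ ^ 2 - x₁ ^ 2) * (x₂ ^ 2 - 2) = 0 := by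
  have : M * ((x₂ ^ 2 - x₁ ^ 2) * (x₃ ^ 2 - 2) - v * (x₃ ^ 2 - x₁ ^ 2) * (x₂ ^ 2 - 2)) = 0 := by
    linear_combination ((x₁ ^ 2 - 2) * (x₂ ^ 2 - 2) * (x₃ ^ 2 - 2) / 4) * E - (x₂ ^ 2 - 2) * (x₃ ^ 2 - 2) * h1 +
      (x₁ ^ 2 - 2) * (x₃ ^ 2 - 2) * h2 + v * (x₂ ^ 2 - 2) * (x₃ ^ 2 - 2) * h1 -
      v * (x₁ ^ 2 - 2) * (x₂ ^ 2 - 2) * h3
  exact (mul_eq_zero.1 this).resolve_left hM

theorem cross₂ {x₁ x₂ x₃ w₁ w₂ w₃ M v : ℂ} (h1 : (x₁ ^ 2 - 2) * w₁ = M) (h2 : (x₂ ^ 2 - 2) * w₂ = M)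
    (h3 : (x₃ ^ 2 - 2) * w₃ = M) (hM : M ≠ 0)
    (E : 2 * x₁ * w₁ - 2 * x₂ * w₂ = v * (2 * x₁ * w₁ - 2 * x₃ * w₃)) :
    (x₂ - x₁) * (x₁ * x₂ + 2) * (x₃ ^ 2 - 2) - v * (x₃ - x₁) * (x₁ * x₃ + 2) * (x₂ ^ 2 - 2) = 0 := by
  have : M * ((x₂ - x₁) * (x₁ * x₂ + 2) * (x₃ ^ 2 - 2) - v * (x₃ - x₁) * (x₁ * x₃ + 2) * (x₂ ^ 2 - 2)) = 0 := by
    linear_combination ((x₁ ^ 2 - 2) * (x₂ ^ 2 - 2) * (x₃ ^ 2 - 2) / 2) * E -
      x₁ * (x₂ ^ 2 - 2) * (x₃ ^ 2 - 2) * h1 + x₂ * (x₁ ^ 2 - 2) * (x₃ ^ 2 - 2) * h2 +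
      v * x₁ * (x₂ ^ 2 - 2) * (x₃ ^ 2 - 2) * h1 - v * x₃ * (x₁ ^ 2 - 2) * (x₂ ^ 2 - 2) * h3
  exact (mul_eq_zero.1 this).resolve_left hM

theorem cross₃ {x₁ x₂ x₃ w₁ w₂ w₃ M v : ℂ} (h1 : (x₁ ^ 2 - 2) * w₁ = M) (h2 : (x₂ ^ 2 - 2) * w₂ = M)
    (h3 : (x₃ ^ 2 - 2) * w₃ = M) (hM : M ≠ 0)
    (E : 2 * (2 * x₁ * w₁) ^ 2 - 2 * (2 * x₂ * w₂) ^ 2 = v * (2 * (2 * x₁ * w₁) ^ 2 - 2 * (2 * x₃ * w₃) ^ 2)) :
    (x₂ ^ 2 - x₁ ^ 2) * (x₁ ^ 2 * x₂ ^ 2 - 4) * (x₃ ^ 2 - 2) ^ 2 -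
      v * (x₃ ^ 2 - x₁ ^ 2) * (x₁ ^ 2 * x₃ ^ 2 - 4) * (x₂ ^ 2 - 2) ^ 2 = 0 := by
  have k1 : (x₁ ^ 2 - 2) ^ 2 * w₁ ^ 2 = M ^ 2 := by rw [← h1]; ring
  have k2 : (x₂ ^ 2 - 2) ^ 2 * w₂ ^ 2 = M ^ 2 := by rw [← h2]; ring
  have k3 : (x₃ ^ 2 - 2) ^ 2 * w₃ ^ 2 = M ^ 2 := by rw [← h3]; ring
  have : M ^ 2 * ((x₂ ^ 2 - x₁ ^ 2) * (x₁ ^ 2 * x₂ ^ 2 - 4) * (x₃ ^ 2 - 2) ^ 2 -
      v * (x₃ ^ 2 - x₁ ^ 2) * (x₁ ^ 2 * x₃ ^ 2 - 4) * (x₂ ^ 2 - 2) ^ 2) = 0 := by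
    linear_combination ((x₁ ^ 2 - 2) ^ 2 * (x₂ ^ 2 - 2) ^ 2 * (x₃ ^ 2 - 2) ^ 2 / 8) * E -
      x₁ ^ 2 * (x₂ ^ 2 - 2) ^ 2 * (x₃ ^ 2 - 2) ^ 2 * k1 + x₂ ^ 2 * (x₁ ^ 2 - 2) ^ 2 * (x₃ ^ 2 - 2) ^ 2 * k2 +
      v * x₁ ^ 2 * (x₂ ^ 2 - 2) ^ 2 * (x₃ ^ 2 - 2) ^ 2 * k1 -
      v * x₃ ^ 2 * (x₁ ^ 2 - 2) ^ 2 * (x₂ ^ 2 - 2) ^ 2 * k3
  exact (mul_eq_zero.1 this).resolve_left (pow_ne_zero 2 hM)

theorem exists_good (g : ℤ[X]) (hg : g.Monic) (hs : Squarefree (g.map (Int.castRingHom ℚ)))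
    (hodd : Odd g.natDegree) (hd : 1 < g.natDegree) (B : Finset ℚ[X]) : ∃ f : ℤ[X], Good g B f := by
  have := hg.free_adjoinRoot
  have := hg.finite_adjoinRoot
  have hrank := finrank_adjoinRoot hg
  have hcard : 2 < (rts g).card := by
    rw [card_rts hg hs]
    obtain ⟨m, hm⟩ := hodd
    omega
  obtain ⟨z₁, z₂, z₃, hz1, hz2, hz3, h12, h13, h23⟩ := Finset.two_lt_card_iff.1 hcard
  obtain ⟨k, hk0, hk⟩ := exists_shift (rts g)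
  obtain ⟨N, hN0, hN, hNV⟩ := exists_scaling (rts g) (B.biUnion cross) (u := fun z => z + k) hk0 hk hz1 hz2 hz3
    h12 h23
  have hN0' : (N : ℂ) ≠ 0 := Nat.cast_ne_zero.2 hN0
  set κ : ℤ[X] := C (N : ℤ) * (X + C (k : ℤ)) with hκ
  have κz : ∀ z : ℂ, κ.eval₂ (Int.castRingHom ℂ) z = N * (z + k) := by
    intro z
    simp [hκ, eval₂_mul, eval₂_add, eval₂_X]
  set r : ℤ[X] := κ ^ 2 - C 2 with hr
  have rz : ∀ z : ℂ, r.eval₂ (Int.castRingHom ℂ) z = (N * (z + k)) ^ 2 - 2 := by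
    intro z
    rw [hr, eval₂_sub, eval₂_pow, κz, eval₂_C]
    simp
  have sq_ne : ∀ z ∈ rts g, ∀ w ∈ rts g, z ≠ w → ((N : ℂ) * (z + k)) ^ 2 ≠ (N * (w + k)) ^ 2 := by
    intro z hz w hw hzw h
    rw [mul_pow, mul_pow] at h
    exact hk z hz w hw hzw (mul_left_cancel₀ (pow_ne_zero 2 hN0') h)
  have hrinj : Set.InjOn (fun z : ℂ => r.eval₂ (Int.castRingHom ℂ) z) (rts g) := by
    intro z hz w hw h
    by_contra hzw
    simp only [rz] at h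
    exact sq_ne z hz w hw hzw (by linear_combination h)
  have hr0 : ∀ z ∈ rts g, r.eval₂ (Int.castRingHom ℂ) z ≠ 0 := by
    intro z hz h
    rw [rz] at h
    exact (hN z hz z hz).1 (by linear_combination h)
  obtain ⟨w, M, hM, hw⟩ := exists_inverse hg hs r hrinj hr0
  have hMC : (M : ℂ) ≠ 0 := Int.cast_ne_zero.2 hM
  have wz : ∀ z ∈ rts g, (((N : ℂ) * (z + k)) ^ 2 - 2) * w.eval₂ (Int.castRingHom ℂ) z = M := by
    intro z hz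
    have h1 : AdjoinRoot.mk g (r * w - C M) = 0 := by
      rw [map_sub, hw]
      simp
    have h2 := eval_of_mk_zero hg h1 hz
    rw [eval₂_sub, eval₂_mul, rz, eval₂_C] at h2
    rw [← sub_eq_zero, ← h2]
    simp
  have v1 : ∀ z : ℂ, (C 4 * w).eval₂ (Int.castRingHom ℂ) z = 4 * w.eval₂ (Int.castRingHom ℂ) z := by
    intro z
    rw [eval₂_mul, eval₂_C]
    simp
  have v2 : ∀ z : ℂ, (C 2 * κ * w).eval₂ (Int.castRingHom ℂ) z =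
      2 * (N * (z + k)) * w.eval₂ (Int.castRingHom ℂ) z := by
    intro z
    rw [eval₂_mul, eval₂_mul, eval₂_C, κz]
    simp
  have v3 : ∀ z : ℂ, (C 2 * (C 2 * κ * w) ^ 2).eval₂ (Int.castRingHom ℂ) z =
      2 * (2 * (N * (z + k)) * w.eval₂ (Int.castRingHom ℂ) z) ^ 2 := by
    intro z
    rw [eval₂_mul, eval₂_pow, v2, eval₂_C]
    simp
  -- the identity
  have hid : AdjoinRoot.mk g (C 4 * w) * (AdjoinRoot.mk g (C 4 * w) + 2 * (M : AdjoinRoot g)) =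
      2 * (AdjoinRoot.mk g (C 2 * κ * w)) ^ 2 := by
    rw [← hw, ← map_ofNat (AdjoinRoot.mk g) 2, ← map_mul, ← map_add, ← map_mul, ← map_pow, ← map_mul]
    congr 1
    have c2 : (C 2 : ℤ[X]) = 2 := rfl
    have c4 : (C 4 : ℤ[X]) = 4 := rfl
    rw [hr, c2, c4]
    ring
  have hodd' : Odd (Module.finrank ℤ (AdjoinRoot g)) := by rwa [hrank]
  obtain ⟨i1, i2⟩ := ident hodd' hid
  have hthird : 2 * (AdjoinRoot.mk g (C 2 * κ * w)) ^ 2 = AdjoinRoot.mk g (C 2 * (C 2 * κ * w) ^ 2) := by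
    rw [map_mul (AdjoinRoot.mk g) (C 2), map_pow]
    congr 1
  rw [hthird] at i1 i2
  have hpos : 0 < g.natDegree := by omega
  -- the third polynomial
  rcases one_of_three_quant hodd' (F_monic (AdjoinRoot.mk g (C 4 * w))).ne_zero
    (F_monic (AdjoinRoot.mk g (C 2 * κ * w))).ne_zero i1 i2 with hb | hb | hb
  · refine ⟨_, good_of_dens hg hs hpos ?_ hz1 hz2 hz3 h13 ?_ hb⟩
    · intro z hz z' hz' h
      by_contra hzz
      simp only [v1] at h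
      have e1 := wz z hz
      have e2 := wz z' hz'
      have e3 : w.eval₂ (Int.castRingHom ℂ) z = w.eval₂ (Int.castRingHom ℂ) z' := by linear_combination h / 4
      rw [e3] at e1
      have e4 : w.eval₂ (Int.castRingHom ℂ) z' ≠ 0 := by
        intro h0
        rw [h0, mul_zero] at e2
        exact hMC e2.symm
      have e5 := mul_right_cancel₀ e4 (e1.trans e2.symm)
      exact sq_ne z hz z' hz' hzz (by linear_combination e5)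
    · intro v hv h
      simp only [v1] at h
      have := cross₁ (wz _ hz1) (wz _ hz2) (wz _ hz3) hMC h
      have h4 := (hNV v hv).1
      simp only [P1, eval_sub, eval_mul, eval_C, eval_pow, eval_X] at h4
      refine (mul_ne_zero (pow_ne_zero 2 hN0') h4) ?_
      linear_combination this
  · refine ⟨_, good_of_dens hg hs hpos ?_ hz1 hz2 hz3 h13 ?_ hb⟩
    · intro z hz z' hz' h
      by_contra hzz
      simp only [v2] at h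
      have e1 := wz z hz
      have e2 := wz z' hz'
      set x := (N : ℂ) * (z + k) with hx
      set y := (N : ℂ) * (z' + k) with hy
      set a := w.eval₂ (Int.castRingHom ℂ) z with ha
      set b := w.eval₂ (Int.castRingHom ℂ) z' with hb'
      have e3 : (M : ℂ) * ((y - x) * (x * y + 2)) = 0 := by
        linear_combination ((x ^ 2 - 2) * (y ^ 2 - 2) / 2) * h - x * (y ^ 2 - 2) * e1 + y * (x ^ 2 - 2) * e2
      have e4 := (mul_eq_zero.1 e3).resolve_left hMC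
      rcases mul_eq_zero.1 e4 with e5 | e5
      · exact sq_ne z hz z' hz' hzz (by rw [← hx, ← hy, sub_eq_zero.1 e5])
      · exact (hN z hz z' hz').2 (by rw [← e5, hx, hy]; ring)
    · intro v hv h
      simp only [v2] at h
      have := cross₂ (wz _ hz1) (wz _ hz2) (wz _ hz3) hMC h
      have h4 := (hNV v hv).2.1
      simp only [P2, eval_sub, eval_add, eval_mul, eval_C, eval_pow, eval_X] at h4
      refine (mul_ne_zero hN0' h4) ?_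
      linear_combination this
  · refine ⟨_, good_of_dens hg hs hpos ?_ hz1 hz2 hz3 h13 ?_ hb⟩
    · intro z hz z' hz' h
      by_contra hzz
      simp only [v3] at h
      have e1 := wz z hz
      have e2 := wz z' hz'
      set x := (N : ℂ) * (z + k) with hx
      set y := (N : ℂ) * (z' + k) with hy
      set a := w.eval₂ (Int.castRingHom ℂ) z with ha
      set b := w.eval₂ (Int.castRingHom ℂ) z' with hb'
      have k1 : (x ^ 2 - 2) ^ 2 * a ^ 2 = (M : ℂ) ^ 2 := by rw [← e1]; ring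
      have k2 : (y ^ 2 - 2) ^ 2 * b ^ 2 = (M : ℂ) ^ 2 := by rw [← e2]; ring
      have e3 : (M : ℂ) ^ 2 * ((y ^ 2 - x ^ 2) * ((x * y + 2) * (x * y - 2))) = 0 := by
        linear_combination ((x ^ 2 - 2) ^ 2 * (y ^ 2 - 2) ^ 2 / 8) * h - x ^ 2 * (y ^ 2 - 2) ^ 2 * k1 +
          y ^ 2 * (x ^ 2 - 2) ^ 2 * k2
      have e4 := (mul_eq_zero.1 e3).resolve_left (pow_ne_zero 2 hMC)
      rcases mul_eq_zero.1 e4 with e5 | e5
      · exact sq_ne z hz z' hz' hzz (by rw [← hx, ← hy, sub_eq_zero.1 e5])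
      · rcases mul_eq_zero.1 e5 with e6 | e6
        · exact (hN z hz z' hz').2 (by rw [← e6, hx, hy]; ring)
        · exact (hN z hz z' hz').1 (by rw [← e6, hx, hy]; ring)
    · intro v hv h
      simp only [v3] at h
      have := cross₃ (wz _ hz1) (wz _ hz2) (wz _ hz3) hMC h
      have h4 := (hNV v hv).2.2
      simp only [P3, eval_sub, eval_mul, eval_C, eval_pow, eval_X] at h4
      refine (mul_ne_zero (pow_ne_zero 2 hN0') h4) ?_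
      linear_combination this

end MP648OD
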