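import Pool.Agent.Lib.MP_648c71_nt.OD.Roots

/-!
# Characteristic polynomials in `ℤ[X]/(g)`
-/

open Polynomial

namespace MP648OD

section general

variable {R : Type*} [CommRing R] [Module.Free ℤ R] [Module.Finite ℤ R]

/-- the characteristic polynomial of `θ` -/
noncomputable def F (θ : R) : ℤ[X] := (Algebra.lmul ℤ R θ).charpoly

theorem F_monic (θ : R) : (F θ).Monic := LinearMap.charpoly_monic _

theorem F_natDegree (θ : R) : (F θ).natDegree = Module.finrank ℤ R := LinearMap.charpoly_natDegree _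

theorem F_aeval (θ : R) : aeval θ (F θ) = 0 := Algebra.aeval_self_charpoly_lmul θ

theorem F_eval (θ : R) (n : ℤ) : (F θ).eval n = Algebra.norm ℤ ((n : R) - θ) := by
  unfold F
  rw [LinearMap.eval_charpoly, Algebra.norm_apply]
  congr 1
  ext x
  simp

theorem norm_int (n : ℤ) : Algebra.norm ℤ (n : R) = n ^ Module.finrank ℤ R := by
  have h := Algebra.norm_algebraMap_of_basis (Module.Free.chooseBasis ℤ R) n
  rw [Module.finrank_eq_card_chooseBasisIndex, ← h]
  simp

/-- the two product identities -/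
theorem ident (hodd : Odd (Module.finrank ℤ R)) {a b : R} {D : ℤ} (h : a * (a + 2 * (D : R)) = 2 * b ^ 2) :
    (∀ x : ℤ, (F (2 * b ^ 2)).eval (x ^ 2 + 2 * D * x) = -((F a).eval x * (F a).eval (-x - 2 * D))) ∧
    (∀ x : ℤ, (F (2 * b ^ 2)).eval (2 * x ^ 2) =
      -(2 ^ (Module.finrank ℤ R) * ((F b).eval x * (F b).eval (-x)))) := by
  have hm1 : Algebra.norm ℤ ((-1 : ℤ) : R) = -1 := by rw [norm_int, hodd.neg_one_pow]
  have h2 : Algebra.norm ℤ ((2 : ℤ) : R) = 2 ^ (Module.finrank ℤ R) := norm_int 2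
  constructor
  · intro x
    rw [F_eval, F_eval, F_eval, ← map_mul, ← neg_one_mul, ← hm1, ← map_mul, ← h]
    congr 1
    push_cast
    ring
  · intro x
    rw [F_eval, F_eval, F_eval, ← map_mul, ← h2, ← map_mul, ← neg_one_mul, ← hm1, ← map_mul]
    congr 1
    push_cast
    ring

end general

end MP648OD
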