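import Pool.Agent.Lib.MP_648c71_nt.OD.Count

/-!
# Quantitative version of the one-sided cubic step
-/

open Polynomial

namespace MP648OD

theorem step_quant {p p' h : ℤ[X]} {s s' y t c k : ℤ} {w M : ℕ} (hk : k = 1 ∨ k = 2) (hkw : k = 2 ^ w)
    (hp0 : p ≠ 0) (hp'0 : p' ≠ 0) (hs : s * s = 1) (hs' : s' * s' = 1) (hy : y * y = 1)
    (rp : 8 * cnt1 p (-s) (4 * M ^ 2) < M) (rp' : 8 * cnt1 p' (-s') (4 * M ^ 2) < M)
    (rh : 8 * cnt1 h (-y) (4 * M ^ 2) < M)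
    (hM : 16 * (p.natDegree + p'.natDegree) + 8 * (t.natAbs + c.natAbs + 1) + 1 ≤ M)
    (hneg : ∀ n : ℤ, p.eval (-n) = -p'.eval n)
    (hid : ∀ x : ℤ, h.eval (-(k * (x * (t - x))) - c) = -(k ^ 3 * (p.eval x * p.eval (t - x)))) :
    y = (-1) ^ (3 * w) * (s * s') := by
  by_contra hcon
  set q : ℤ := (-1) ^ (3 * w) * (s * s') with hq
  have hqq : q * q = 1 := by
    have h1 : ((-1 : ℤ) ^ (3 * w)) * (-1) ^ (3 * w) = 1 := by
      rw [← mul_pow]
      norm_num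
    rw [hq]
    linear_combination (s * s) * (s' * s') * h1 + s' * s' * hs + hs'
  have hyq : q = -y := by
    have h1 : (y - q) * (y + q) = 0 := by linear_combination hy - hqq
    rcases mul_eq_zero.1 h1 with h2 | h2
    · exact absurd (sub_eq_zero.1 h2) hcon
    · linarith
  set X₀ : ℕ := t.natAbs + c.natAbs + 1 with hX₀
  have ht1 : t ≤ t.natAbs := by rw [← Int.abs_eq_natAbs]; exact le_abs_self t
  have ht2 : -(t.natAbs : ℤ) ≤ t := by rw [← Int.abs_eq_natAbs]; exact neg_abs_le t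
  have hc1 : c ≤ c.natAbs := by rw [← Int.abs_eq_natAbs]; exact le_abs_self c
  have hc2 : -(c.natAbs : ℤ) ≤ c := by rw [← Int.abs_eq_natAbs]; exact neg_abs_le c
  have htn : (0 : ℤ) ≤ t.natAbs := by positivity
  have hcn : (0 : ℤ) ≤ c.natAbs := by positivity
  have hX0 : (X₀ : ℤ) = t.natAbs + c.natAbs + 1 := by rw [hX₀]; push_cast; ring
  have hXM : (X₀ : ℤ) ≤ M := by exact_mod_cast (by omega : X₀ ≤ M)
  have hN : ((4 * M ^ 2 : ℕ) : ℤ) = 4 * (M : ℤ) ^ 2 := by push_cast; ring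
  have hk1 : 1 ≤ k := by rcases hk with rfl | rfl <;> norm_num
  have hk2 : k ≤ 2 := by rcases hk with rfl | rfl <;> norm_num
  have hLk : L (k ^ 3) = (-1) ^ (3 * w) := by
    unfold L
    rw [hkw, ← pow_mul, Int.natAbs_pow]
    have h2 : (2 : ℤ).natAbs = 2 := rfl
    rw [h2, ArithmeticFunction.cardFactors_apply_prime_pow Nat.prime_two, mul_comm w 3]
  have hc := count (X₀ := (X₀ : ℤ)) (M := (M : ℤ)) (u₁ := fun x => x) (u₂ := fun x => x - t)
    (u₃ := fun x => -(k * (x * (t - x))) - c) (E₁ := exc1 p (-s) (4 * M ^ 2)) (E₂ := exc1 p' (-s') (4 * M ^ 2))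
    (E₃ := (Finset.Icc (1 : ℤ) ((4 * M ^ 2 : ℕ) : ℤ)).filter (fun n => L (h.eval n) = -y))
    (fun x _ y _ h => h) (by
      intro x _ y _ h
      have : x - t = y - t := h
      linarith) (by
      intro x hx y hy hxy
      rw [Finset.mem_coe, Finset.mem_Icc] at hx hy
      have h3 : -(k * (x * (t - x))) - c = -(k * (y * (t - y))) - c := hxy
      have h4 : k * ((x - y) * (x + y - t)) = 0 := by linear_combination h3
      rcases mul_eq_zero.1 h4 with h5 | h5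
      · linarith
      · rcases mul_eq_zero.1 h5 with h6 | h6
        · linarith
        · exfalso
          linarith [hx.1, hy.1]) (by
      intro x hx
      rw [Finset.mem_Icc] at hx
      obtain ⟨x1, x2⟩ := hx
      have x0 : 0 < x := by linarith
      by_contra hn
      rw [not_or, not_or] at hn
      obtain ⟨n1, n2, n3⟩ := hn
      have b1 : x ≤ ((4 * M ^ 2 : ℕ) : ℤ) := by rw [hN]; nlinarith
      have b2 : x - t ≤ ((4 * M ^ 2 : ℕ) : ℤ) := by rw [hN]; nlinarith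
      obtain ⟨p1, p2⟩ := of_notMem_exc1 hp0 hs (by linarith) b1 n1
      obtain ⟨q1, q2⟩ := of_notMem_exc1 hp'0 hs' (n := x - t) (by linarith) b2 n2
      have r3 : p.eval (t - x) = -p'.eval (x - t) := by rw [← hneg]; congr 1; ring
      apply n3
      rw [Finset.mem_filter, Finset.mem_Icc]
      have b3 : x - t ≤ x * (x - t) := by nlinarith
      have b4 : x * (x - t) ≤ k * (x * (x - t)) := by nlinarith
      have b5 : x * (x - t) ≤ M * (M + t.natAbs) := by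
        apply mul_le_mul x2 (by linarith) (by linarith) (by linarith)
      have b6 : k * (x * (x - t)) ≤ 2 * (M * (M + t.natAbs)) := by
        apply mul_le_mul hk2 b5 (by linarith) (by norm_num)
      have b7 : -(k * (x * (t - x))) - c = k * (x * (x - t)) - c := by ring
      refine ⟨⟨by linarith, by rw [hN, b7]; nlinarith⟩, ?_⟩
      rw [hid, L_neg, L_mul (pow_ne_zero 3 (by linarith)) (mul_ne_zero p1 (by rw [r3]; exact neg_ne_zero.2 q1)),
        L_mul p1 (by rw [r3]; exact neg_ne_zero.2 q1), p2, r3, L_neg, q2, hLk]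
      exact hyq)
  have h6 := card_exc1 p (-s) (4 * M ^ 2)
  have h6' := card_exc1 p' (-s') (4 * M ^ 2)
  have h7 : ((Finset.Icc (1 : ℤ) ((4 * M ^ 2 : ℕ) : ℤ)).filter (fun n => L (h.eval n) = -y)).card =
    cnt1 h (-y) (4 * M ^ 2) := rfl
  rw [h7] at hc
  have hc' : (M : ℤ) ≤ ((exc1 p (-s) (4 * M ^ 2)).card + (exc1 p' (-s') (4 * M ^ 2)).card +
    cnt1 h (-y) (4 * M ^ 2) + X₀ : ℕ) := by push_cast; linarith
  have hc'' : M ≤ (exc1 p (-s) (4 * M ^ 2)).card + (exc1 p' (-s') (4 * M ^ 2)).card +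
    cnt1 h (-y) (4 * M ^ 2) + X₀ := by exact_mod_cast hc'
  omega

theorem one_of_six_quant {p p' q q' h₁ h₂ : ℤ[X]} {s₁ s₂ u₁ u₂ c : ℤ} (hp0 : p ≠ 0) (hp'0 : p' ≠ 0) (hq0 : q ≠ 0)
    (hq'0 : q' ≠ 0) (hp : ∀ n : ℤ, p.eval (-n) = -p'.eval n)
    (hq : ∀ n : ℤ, q.eval (-n) = -q'.eval n)
    (i1 : ∀ x : ℤ, h₁.eval (-(x * (s₁ - x))) = -(p.eval x * p.eval (s₁ - x)))
    (i2 : ∀ x : ℤ, h₂.eval (-(2 * (x * (s₂ - x)))) = -(2 ^ 3 * (p.eval x * p.eval (s₂ - x))))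
    (j1 : ∀ x : ℤ, h₁.eval (-(x * (u₁ - x)) - c) = -(q.eval x * q.eval (u₁ - x)))
    (j2 : ∀ x : ℤ, h₂.eval (-(x * (u₂ - x)) - c) = -(q.eval x * q.eval (u₂ - x))) :
    Dens1 p ∨ Dens1 p' ∨ Dens1 q ∨ Dens1 q' ∨ Dens1 h₁ ∨ Dens1 h₂ := by
  by_contra hcon
  simp only [not_or] at hcon
  obtain ⟨c1, c2, c3, c4, c5, c6⟩ := hcon
  obtain ⟨K₁, k1⟩ := rare_of_not_dens1 c1
  obtain ⟨K₂, k2⟩ := rare_of_not_dens1 c2
  obtain ⟨K₃, k3⟩ := rare_of_not_dens1 c3
  obtain ⟨K₄, k4⟩ := rare_of_not_dens1 c4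
  obtain ⟨K₅, k5⟩ := rare_of_not_dens1 c5
  obtain ⟨K₆, k6⟩ := rare_of_not_dens1 c6
  set M : ℕ := K₁ + K₂ + K₃ + K₄ + K₅ + K₆ + 16 * (p.natDegree + p'.natDegree + q.natDegree + q'.natDegree) +
    8 * (s₁.natAbs + s₂.natAbs + u₁.natAbs + u₂.natAbs + c.natAbs + 1) + 1 with hM
  obtain ⟨s, hs, r1⟩ := k1 M (by omega)
  obtain ⟨s', hs', r2⟩ := k2 M (by omega)
  obtain ⟨t, ht, r3⟩ := k3 M (by omega)
  obtain ⟨t', ht', r4⟩ := k4 M (by omega)
  obtain ⟨y, hy, r5⟩ := k5 M (by omega)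
  obtain ⟨z, hz, r6⟩ := k6 M (by omega)
  have z0 : (0 : ℤ).natAbs = 0 := rfl
  have e1 := step_quant (k := 1) (w := 0) (c := 0) (Or.inl rfl) (by norm_num) hp0 hp'0 hs hs' hy r1 r2 r5
    (t := s₁) (by rw [z0]; omega) hp (fun x => by rw [sub_zero, one_mul, i1]; ring)
  have e2 := step_quant (k := 2) (w := 1) (c := 0) (Or.inr rfl) (by norm_num) hp0 hp'0 hs hs' hz r1 r2 r6
    (t := s₂) (by rw [z0]; omega) hp (fun x => by rw [sub_zero, i2])
  have e3 := step_quant (k := 1) (w := 0) (c := c) (Or.inl rfl) (by norm_num) hq0 hq'0 ht ht' hy r3 r4 r5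
    (t := u₁) (by omega) hq (fun x => by rw [one_mul, j1]; ring)
  have e4 := step_quant (k := 1) (w := 0) (c := c) (Or.inl rfl) (by norm_num) hq0 hq'0 ht ht' hz r3 r4 r6
    (t := u₂) (by omega) hq (fun x => by rw [one_mul, j2]; ring)
  have hss : (s * s') * (s * s') = 1 := by linear_combination s' * s' * hs + hs'
  norm_num at e1 e2 e3 e4
  have h0 : s * s' = 0 := by linarith
  rw [h0] at hss
  norm_num at hss

end MP648OD
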