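import Pool.Agent.Lib.MP_648c71_nt.OD.Arith

/-!
# Complex roots and étale algebras
-/

open Polynomial

namespace MP648OD

/-- The complex roots of an integer polynomial -/
noncomputable def rts (g : ℤ[X]) : Finset ℂ := (g.map (Int.castRingHom ℂ)).roots.toFinset

theorem mem_rts {g : ℤ[X]} (hg : g.Monic) {z : ℂ} : z ∈ rts g ↔ g.eval₂ (Int.castRingHom ℂ) z = 0 := by
  unfold rts
  rw [Multiset.mem_toFinset, mem_roots (hg.map _).ne_zero, IsRoot.def, eval_map]

theorem map_map_C (g : ℤ[X]) : (g.map (Int.castRingHom ℚ)).map (algebraMap ℚ ℂ) = g.map (Int.castRingHom ℂ) := by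
  rw [Polynomial.map_map]
  congr 1

theorem card_rts {g : ℤ[X]} (hg : g.Monic) (hs : Squarefree (g.map (Int.castRingHom ℚ))) :
    (rts g).card = g.natDegree := by
  have h1 : (g.map (Int.castRingHom ℚ)).Separable := PerfectField.separable_iff_squarefree.2 hs
  have h2 : (g.map (Int.castRingHom ℂ)).Separable := by
    rw [← map_map_C]
    exact h1.map
  unfold rts
  rw [Multiset.toFinset_card_of_nodup (nodup_roots h2)]
  rw [← (IsAlgClosed.splits (g.map (Int.castRingHom ℂ))).natDegree_eq_card_roots, hg.natDegree_map]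

/-- A monic polynomial of degree `|S|` vanishing at the distinct numbers `t z`, `z ∈ S` -/
theorem eq_prod {f : ℤ[X]} (hf : f.Monic) {S : Finset ℂ} {t : ℂ → ℂ} (hinj : Set.InjOn t S)
    (hdeg : f.natDegree = S.card) (h0 : ∀ z ∈ S, f.eval₂ (Int.castRingHom ℂ) (t z) = 0) :
    f.map (Int.castRingHom ℂ) = ∏ z ∈ S, (X - C (t z)) := by
  have hdvd : (∏ z ∈ S, (X - C (t z))) ∣ f.map (Int.castRingHom ℂ) := by
    refine Finset.prod_dvd_of_coprime ?_ ?_
    · intro z hz w hw hzw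
      exact isCoprime_X_sub_C_of_isUnit_sub (sub_ne_zero.2 (fun h => hzw (hinj hz hw h))).isUnit
    · intro z hz
      rw [dvd_iff_isRoot, IsRoot.def, eval_map]
      exact h0 z hz
  have hm : (∏ z ∈ S, (X - C (t z))).Monic := monic_prod_of_monic _ _ (fun z _ => monic_X_sub_C _)
  have hd : (∏ z ∈ S, (X - C (t z))).natDegree = S.card := by
    rw [natDegree_prod_of_monic _ _ (fun z _ => monic_X_sub_C _)]
    simp
  refine eq_of_monic_of_dvd_of_natDegree_le hm (hf.map _) hdvd ?_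
  rw [hd, hf.natDegree_map, hdeg]

theorem squarefree_of_roots {f : ℤ[X]} (hf : f.Monic) {S : Finset ℂ} {t : ℂ → ℂ} (hinj : Set.InjOn t S)
    (hdeg : f.natDegree = S.card) (h0 : ∀ z ∈ S, f.eval₂ (Int.castRingHom ℂ) (t z) = 0) :
    Squarefree (f.map (Int.castRingHom ℚ)) := by
  have h := eq_prod hf hinj hdeg h0
  have hsep : (f.map (Int.castRingHom ℂ)).Separable := by
    rw [h]
    refine separable_prod' ?_ (fun z _ => separable_X_sub_C)
    intro z hz w hw hzw
    exact isCoprime_X_sub_C_of_isUnit_sub (sub_ne_zero.2 (fun h => hzw (hinj hz hw h))).isUnit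
  rw [← map_map_C, separable_map] at hsep
  exact PerfectField.separable_iff_squarefree.1 hsep

theorem dvd_of_roots {f : ℤ[X]} (hf : f.Monic) {S : Finset ℂ} {t : ℂ → ℂ} (hinj : Set.InjOn t S)
    (hdeg : f.natDegree = S.card) (h0 : ∀ z ∈ S, f.eval₂ (Int.castRingHom ℂ) (t z) = 0) {p : ℚ[X]}
    (hp : ∀ z ∈ S, p.eval₂ (algebraMap ℚ ℂ) (t z) = 0) : f.map (Int.castRingHom ℚ) ∣ p := by
  have h := eq_prod hf hinj hdeg h0
  have h1 : (∏ z ∈ S, (X - C (t z))) ∣ p.map (algebraMap ℚ ℂ) := by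
    refine Finset.prod_dvd_of_coprime ?_ ?_
    · intro z hz w hw hzw
      exact isCoprime_X_sub_C_of_isUnit_sub (sub_ne_zero.2 (fun h => hzw (hinj hz hw h))).isUnit
    · intro z hz
      rw [dvd_iff_isRoot, IsRoot.def, eval_map]
      exact hp z hz
  rw [← h, ← map_map_C] at h1
  exact (map_dvd_map' (algebraMap ℚ ℂ)).1 h1

/-- the isomorphism of étale algebras -/
theorem iso_of_roots {f g h : ℤ[X]} (hf : f.Monic) (hg : g.Monic) (hs : Squarefree (g.map (Int.castRingHom ℚ)))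
    (hdeg : f.natDegree = g.natDegree) (hinj : Set.InjOn (fun z : ℂ => h.eval₂ (Int.castRingHom ℂ) z) (rts g))
    (hdvd : g ∣ f.comp h) :
    Nonempty (AdjoinRoot (f.map (Int.castRingHom ℚ)) ≃ₐ[ℚ] AdjoinRoot (g.map (Int.castRingHom ℚ))) := by
  set fQ := f.map (Int.castRingHom ℚ) with hfQ
  set gQ := g.map (Int.castRingHom ℚ) with hgQ
  set hQ := h.map (Int.castRingHom ℚ) with hhQ
  have hdeg' : f.natDegree = (rts g).card := by rw [hdeg, card_rts hg hs]
  have h0 : ∀ z ∈ rts g, f.eval₂ (Int.castRingHom ℂ) (h.eval₂ (Int.castRingHom ℂ) z) = 0 := by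
    intro z hz
    rw [mem_rts hg] at hz
    obtain ⟨q, hq⟩ := hdvd
    have := congrArg (fun p => p.eval₂ (Int.castRingHom ℂ) z) hq
    simp only [eval₂_comp, eval₂_mul, hz, zero_mul] at this
    exact this
  have hroot : fQ.eval₂ (Algebra.ofId ℚ (AdjoinRoot gQ) : ℚ →+* AdjoinRoot gQ) (AdjoinRoot.mk gQ hQ) = 0 := by
    have e1 : AdjoinRoot.mk gQ (fQ.comp hQ) = 0 := by
      rw [AdjoinRoot.mk_eq_zero]
      have := Polynomial.map_dvd (Int.castRingHom ℚ) hdvd
      rwa [Polynomial.map_comp] at this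
    rw [← e1, Polynomial.comp, Polynomial.hom_eval₂]
    rfl
  let φ : AdjoinRoot fQ →ₐ[ℚ] AdjoinRoot gQ := AdjoinRoot.liftAlgHom fQ (Algebra.ofId ℚ (AdjoinRoot gQ))
    (AdjoinRoot.mk gQ hQ) hroot
  have hφ : ∀ p : ℚ[X], φ (AdjoinRoot.mk fQ p) = AdjoinRoot.mk gQ (p.comp hQ) := by
    intro p
    rw [AdjoinRoot.liftAlgHom_mk, Polynomial.comp, Polynomial.hom_eval₂]
    rfl
  have hinjφ : Function.Injective φ := by
    rw [injective_iff_map_eq_zero]
    intro x
    obtain ⟨p, rfl⟩ := AdjoinRoot.mk_surjective x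
    intro hx
    rw [hφ, AdjoinRoot.mk_eq_zero] at hx
    rw [AdjoinRoot.mk_eq_zero]
    refine dvd_of_roots hf hinj hdeg' h0 ?_
    intro z hz
    rw [mem_rts hg] at hz
    obtain ⟨q, hq⟩ := hx
    have e2 := congrArg (fun p => p.eval₂ (algebraMap ℚ ℂ) z) hq
    have e3 : gQ.eval₂ (algebraMap ℚ ℂ) z = 0 := by
      rw [hgQ, eval₂_map, ← hz]
      congr 1
    have e4 : hQ.eval₂ (algebraMap ℚ ℂ) z = h.eval₂ (Int.castRingHom ℂ) z := by
      rw [hhQ, eval₂_map]
      congr 1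
    simp only [eval₂_comp, eval₂_mul, e3, zero_mul, e4] at e2
    exact e2
  have hfm : fQ.Monic := hf.map _
  have hgm : gQ.Monic := hg.map _
  have := hfm.finite_adjoinRoot
  have := hgm.finite_adjoinRoot
  have hfin : Module.finrank ℚ (AdjoinRoot fQ) = Module.finrank ℚ (AdjoinRoot gQ) := by
    rw [(AdjoinRoot.powerBasis' hfm).finrank, (AdjoinRoot.powerBasis' hgm).finrank, AdjoinRoot.powerBasis'_dim,
      AdjoinRoot.powerBasis'_dim, hfQ, hgQ, hf.natDegree_map, hg.natDegree_map, hdeg]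
  have hsurj : Function.Surjective φ :=
    (LinearMap.injective_iff_surjective_of_finrank_eq_finrank (f := φ.toLinearMap) hfin).1 hinjφ
  exact ⟨AlgEquiv.ofBijective φ ⟨hinjφ, hsurj⟩⟩

end MP648OD
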